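import Pool.Agent.Lib.MP_71d0e6_al.WD.Basic
import Pool.Agent.Lib.MP_71d0e6_al.SD.Amp

namespace Pool.Agent.Lib.MP_71d0e6_al.WD

open FirstOrder FirstOrder.Language Finset Pool.Agent.Lib.MP_71d0e6_al.SD

universe u v w

variable {A : Type w} {Λ : Type} {s : (Λ → A) → A}

/-- `2 a` tests with weights `a` and `a - f`. -/
def Bal (s : (Λ → A) → A) (a : ℕ) (f : Λ → ℤ) : Prop :=
  ∃ (ι : Type) (_ : Fintype ι) (U V : ι → Λ → Bool), Fintype.card ι = 2 * a ∧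
    (∀ r, Tst s (U r) (V r)) ∧ (∀ j, ∑ r, bi (U r j) = a) ∧ ∀ j, ∑ r, bi (V r j) = a - f j

lemma Bal.of_dr {n : ℕ} {f : Λ → ℤ} (h : Dr (Drift (Tst s)) n f) : Bal s n f := by
  obtain ⟨U, V, hT, hd⟩ := h.tests
  have hn : ∀ b, bi (!b) = 1 - bi b := fun b => by cases b <;> rfl
  refine ⟨Fin n ⊕ Fin n, inferInstance,
    Sum.elim (fun r => U r) fun r j => !U r j, Sum.elim (fun r => V r) fun r j => !U r j,
    by simp [two_mul], ?_, fun j => ?_, fun j => ?_⟩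
  · rintro (r | r)
    exacts [hT r, fun _ _ => rfl]
  · simp [hn]
  · have := hd j
    rw [← Fin.sum_univ_eq_sum_range (fun t => bi (U t j) - bi (V t j)), sum_sub_distrib] at this
    simp only [Fintype.sum_sum_type, Sum.elim_inl, Sum.elim_inr, hn, sum_sub_distrib, sum_const,
      card_univ, Fintype.card_fin, nsmul_eq_mul, mul_one]
    omega

lemma Bal.add {a b : ℕ} {f g : Λ → ℤ} (hf : Bal s a f) (hg : Bal s b g) :
    Bal s (a + b) fun j => f j + g j := by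
  obtain ⟨ι, _, U, V, h1, h2, h3, h4⟩ := hf
  obtain ⟨ι', _, U', V', h1', h2', h3', h4'⟩ := hg
  refine ⟨ι ⊕ ι', inferInstance, Sum.elim U U', Sum.elim V V', by simp [h1, h1', mul_add], ?_,
    fun j => by simp [h3, h3'], fun j => ?_⟩
  · rintro (r | r)
    exacts [h2 r, h2' r]
  · simp only [Fintype.sum_sum_type, Sum.elim_inl, Sum.elim_inr, h4, h4']
    push_cast
    ring

lemma Bal.congr {a : ℕ} {f g : Λ → ℤ} (hf : Bal s a f) (h : ∀ j, f j = g j) : Bal s a g := by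
  rwa [← funext h]

lemma Bal.to_dr {a : ℕ} {f : Λ → ℤ} (hf : Bal s a f) : Dr (Drift (Tst s)) (2 * a) f := by
  obtain ⟨ι, _, U, V, h1, h2, h3, h4⟩ := hf
  have := Dr.sum (Tst.zero_mem s) (univ : Finset ι) (n := fun _ => 1)
    (f := fun r j => bi (U r j) - bi (V r j)) fun r _ => Dr.one ⟨_, _, h2 r, fun _ => rfl⟩
  simp only [sum_const, card_univ, smul_eq_mul, mul_one, h1] at this
  refine this.congr fun j => ?_
  rw [sum_sub_distrib, h3, h4]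
  ring

/-- The third star power. -/
def cube (s : (Λ → A) → A) : (Λ × Λ × Λ → A) → A :=
  fun Y => s fun j₁ => s fun j₂ => s fun j₃ => Y (j₁, j₂, j₃)

lemma cube_idem (hs : Idem s) : Idem (cube s) := fun x => by
  have h : ∀ x, s (fun _ => x) = x := hs
  simp only [cube, h]

lemma cube_clo {L : FirstOrder.Language.{u, v}} [L.Structure A] (h : Clo L s) :
    Clo L (cube s) :=
  h.comp fun _ => h.comp fun _ => h.comp fun _ => Clo.proj _

lemma cube_tst {U₁ V₁ U₂ V₂ U₃ V₃ : Λ → Bool} (h₁ : Tst s U₁ V₁) (h₂ : Tst s U₂ V₂)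
    (h₃ : Tst s U₃ V₃) (φ : Bool → Bool → Bool → Bool) :
    Tst (cube s) (fun j => φ (U₁ j.1) (U₂ j.2.1) (U₃ j.2.2))
      fun j => φ (V₁ j.1) (V₂ j.2.1) (V₃ j.2.2) := fun x y => by
  simp only [cube, bv]
  have e₃ := fun p q => h₃.app fun b => if φ p q b = true then y else x
  have e₂ := fun p => h₂.app fun q => s fun j => if φ p q (V₃ j) = true then y else x
  simp only [e₃, e₂]
  exact h₁.app fun p => s fun j₂ => s fun j₃ => if φ p (V₂ j₂) (V₃ j₃) = true then y else x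

lemma lift₁ {d : Λ → ℤ} (h : d ∈ Drift (Tst s)) :
    (d ∘ fun w : Λ × Λ × Λ => w.1) ∈ Drift (Tst (cube s)) := by
  obtain ⟨U, V, hT, hd⟩ := h
  exact ⟨_, _, cube_tst hT hT hT fun a _ _ => a, fun _ => hd _⟩

lemma lift₂ {d : Λ → ℤ} (h : d ∈ Drift (Tst s)) :
    (d ∘ fun w : Λ × Λ × Λ => w.2.1) ∈ Drift (Tst (cube s)) := by
  obtain ⟨U, V, hT, hd⟩ := h
  exact ⟨_, _, cube_tst hT hT hT fun _ a _ => a, fun _ => hd _⟩

lemma lift₃ {d : Λ → ℤ} (h : d ∈ Drift (Tst s)) :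
    (d ∘ fun w : Λ × Λ × Λ => w.2.2) ∈ Drift (Tst (cube s)) := by
  obtain ⟨U, V, hT, hd⟩ := h
  exact ⟨_, _, cube_tst hT hT hT fun _ _ a => a, fun _ => hd _⟩

lemma gate₁ {n : ℕ} {f : Λ → ℤ} (h : Dr (Drift (Tst s)) n f) (G : Λ × Λ → Bool) :
    Dr (Drift (Tst (cube s))) n fun w => f w.1 * bi (G w.2) := by
  obtain ⟨U, V, hT, hd⟩ := h.tests
  refine ⟨fun t w => (bi (U t w.1) - bi (V t w.1)) * bi (G w.2), fun t =>
    ⟨fun w => U t w.1 && G w.2, fun w => V t w.1 && G w.2, fun x y => ?_, fun w => ?_⟩,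
    fun w => by rw [← sum_mul, hd]⟩
  · exact (hT t).app fun b => s fun j₂ => s fun j₃ => if (b && G (j₂, j₃)) = true then y else x
  · dsimp only
    cases U t w.1 <;> cases V t w.1 <;> cases G w.2 <;> rfl

lemma gate {n M : ℕ} {f : Λ → ℤ} (h : Dr (Drift (Tst s)) n f) (g : Λ × Λ → ℤ)
    (hg : ∀ w, 0 ≤ g w ∧ g w ≤ M) :
    Dr (Drift (Tst (cube s))) (M * n) fun w => f w.1 * g w.2 := by
  have := Dr.sum (Tst.zero_mem (cube s)) (range M) (n := fun _ => n)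
    fun t _ => gate₁ h fun w => decide ((t : ℤ) < g w)
  simp only [sum_const, card_range, smul_eq_mul] at this
  refine this.congr fun w => ?_
  have := hg w.2
  rw [← mul_sum, sum_unary]
  congr 1
  omega

lemma Bal.maj {a : ℕ} {f : Λ → ℤ} (hf : Bal s a f) : Bal (cube s) (4 * a ^ 3) fun w =>
    2 * a ^ 2 * (f w.1 + f w.2.1 + f w.2.2) - f w.1 * (2 * (f w.2.1 * f w.2.2)) := by
  obtain ⟨ι, _, U, V, h1, h2, h3, h4⟩ := hf
  have key : ∀ p q r : ι → Bool, ∑ i : ι × ι × ι, bi (SD.maj (p i.1) (q i.2.1) (r i.2.2)) =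
      2 * a * ((∑ i, bi (p i)) * (∑ i, bi (q i)) + (∑ i, bi (q i)) * (∑ i, bi (r i)) +
        (∑ i, bi (p i)) * ∑ i, bi (r i)) -
        2 * ((∑ i, bi (p i)) * ((∑ i, bi (q i)) * ∑ i, bi (r i))) := fun p q r => by
    simp only [Fintype.sum_prod_type, bi_maj, sum_sub_distrib, sum_add_distrib, ← mul_sum,
      ← sum_mul, sum_const, card_univ, nsmul_eq_mul, h1]
    push_cast
    ring
  refine ⟨ι × ι × ι, inferInstance,
    fun r j => SD.maj (U r.1 j.1) (U r.2.1 j.2.1) (U r.2.2 j.2.2),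
    fun r j => SD.maj (V r.1 j.1) (V r.2.1 j.2.1) (V r.2.2 j.2.2), ?_,
    fun r => cube_tst (h2 _) (h2 _) (h2 _) SD.maj, fun j => ?_, fun j => ?_⟩
  · simp only [Fintype.card_prod, h1]
    ring
  · rw [key (fun r => U r j.1) (fun r => U r j.2.1) fun r => U r j.2.2, h3, h3, h3]
    push_cast
    ring
  · rw [key (fun r => V r j.1) (fun r => V r j.2.1) fun r => V r j.2.2, h4, h4, h4]
    push_cast
    ring

variable {Λ₀ : Type}

/-- A star power of `s₀` with `q` coordinates in which every small sum `f` of `κ` drifts of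
`s₀` gives `2 a` tests of total drift `E` times the sum of `f` over the coordinates. -/
def Tw (L : FirstOrder.Language.{u, v}) [L.Structure A] (s₀ : (Λ₀ → A) → A) (κ n q a E : ℕ) :
    Prop :=
  ∃ (Λ : Type) (_ : Fintype Λ) (_ : Nonempty Λ) (s : (Λ → A) → A) (I : Type) (_ : Fintype I)
    (pr : I → Λ → Λ₀), Clo L s ∧ Idem s ∧ Fintype.card Λ ≤ n ∧ Fintype.card I = q ∧
      (∀ i, ∀ d ∈ Drift (Tst s₀), d ∘ pr i ∈ Drift (Tst s)) ∧
      ∀ f : Λ₀ → ℤ, (∀ j, 0 ≤ f j ∧ f j ≤ 2) → Dr (Drift (Tst s₀)) κ f →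
        Bal s a fun w => E * ∑ i, f (pr i w)

variable {L : FirstOrder.Language.{u, v}} [L.Structure A] {s₀ : (Λ₀ → A) → A}

lemma Tw.step {κ n q a E : ℕ} (h : Tw L s₀ κ n q a E) :
    Tw L s₀ κ (n ^ 3) (3 * q) (4 * a ^ 3 + 16 * a * (E * q) ^ 2) (2 * a ^ 2 * E) := by
  obtain ⟨Λ, _, _, s, I, _, pr, h1, h2, h3, h4, h5, h6⟩ := h
  refine ⟨Λ × Λ × Λ, inferInstance, inferInstance, cube s, I ⊕ I ⊕ I, inferInstance,
    Sum.elim (fun i w => pr i w.1) (Sum.elim (fun i w => pr i w.2.1) fun i w => pr i w.2.2),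
    cube_clo h1, cube_idem h2, ?_, by simp [h4]; ring, ?_, fun f hf hd => ?_⟩
  · simp only [Fintype.card_prod]
    calc _ ≤ n * (n * n) := by gcongr
      _ = _ := by ring
  · rintro (i | i | i) d hd
    exacts [lift₁ (h5 i d hd), lift₂ (h5 i d hd), lift₃ (h5 i d hd)]
  · have hB := h6 f hf hd
    have hF : ∀ w, 0 ≤ (E : ℤ) * ∑ i, f (pr i w) ∧ (E : ℤ) * ∑ i, f (pr i w) ≤ 2 * (E * q) :=
      fun w => by
        have e1 : 0 ≤ ∑ i, f (pr i w) := sum_nonneg fun _ _ => (hf _).1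
        have e2 : ∑ i, f (pr i w) ≤ q * 2 := by
          simpa [h4] using sum_le_card_nsmul univ (fun i => f (pr i w)) 2 fun _ _ => (hf _).2
        have e3 : (0 : ℤ) ≤ E := by positivity
        exact ⟨by positivity, by nlinarith⟩
    have hG := gate (M := 8 * (E * q) ^ 2) hB.to_dr
      (fun w => 2 * ((E * ∑ i, f (pr i w.1)) * (E * ∑ i, f (pr i w.2)))) fun w => by
        have e1 := hF w.1
        have e2 := hF w.2
        have e3 := mul_le_mul e1.2 e2.2 e2.1 (e1.1.trans e1.2)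
        have e4 := mul_nonneg e1.1 e2.1
        push_cast
        constructor <;> nlinarith
    have := hB.maj.add (Bal.of_dr hG)
    rw [show 8 * (E * q) ^ 2 * (2 * a) = 16 * a * (E * q) ^ 2 by ring] at this
    refine this.congr fun w => ?_
    simp only [Fintype.sum_sum_type, Sum.elim_inl, Sum.elim_inr]
    push_cast
    ring

lemma Tw.iter [Fintype Λ₀] [Nonempty Λ₀] (h1 : Clo L s₀) (h2 : Idem s₀) {κ : ℕ}
    (hκ : 2 ^ 20 ≤ κ) (n : ℕ) (hn : n ≤ 24) :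
    ∃ a E : ℕ, Tw L s₀ κ (Fintype.card Λ₀ ^ 3 ^ n) (3 ^ n) a E ∧ 0 < a ∧
      3 * a ≤ (3 * κ) ^ 3 ^ n ∧ (7 / 5 : ℝ) ^ n * a ≤ κ * (E * 3 ^ n : ℕ) ∧
      (κ * (E * 3 ^ n : ℕ) : ℝ) ≤ (3 / 2) ^ n * a := by
  have hκ' : (2 ^ 20 : ℝ) ≤ κ := by exact_mod_cast hκ
  induction n with
  | zero =>
    exact ⟨κ, 1, ⟨Λ₀, inferInstance, inferInstance, s₀, Unit, inferInstance, fun _ => id, h1, h2,
      by simp, by simp, fun _ _ h => h, fun f _ hd => (Bal.of_dr hd).congr fun j => by simp⟩,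
      by omega, by simp, by simp, by simp⟩
  | succ n ih =>
    obtain ⟨a, E, t1, t2, t3, t4, t5⟩ := ih (by omega)
    have t6 := t1.step
    rw [← pow_mul, ← pow_succ, ← pow_succ'] at t6
    have ha : (0 : ℝ) < a := by exact_mod_cast t2
    have e0 : 2 * a ^ 2 * E * 3 ^ (n + 1) = 6 * a ^ 2 * (E * 3 ^ n) := by ring
    generalize E * 3 ^ n = X at t4 t5 t6 e0
    have hX : (0 : ℝ) ≤ X := by positivity
    have hX' : (X : ℝ) ≤ 1 / 8 * a := by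
      have e1 : (3 / 2 : ℝ) ^ n ≤ (3 / 2) ^ 24 := pow_le_pow_right₀ (by norm_num) (by omega)
      have e2 : (3 / 2 : ℝ) ^ 24 ≤ 2 ^ 20 * (1 / 8) := by norm_num
      have e3 : (2 ^ 20 : ℝ) * X ≤ 2 ^ 20 * (1 / 8) * a := by nlinarith
      linarith
    have hs : (X : ℝ) ^ 2 ≤ a ^ 2 / 64 := by nlinarith
    have hs' : 16 * (a : ℝ) * X ^ 2 ≤ a ^ 3 / 4 := by nlinarith
    refine ⟨_, _, t6, Nat.add_pos_left (Nat.mul_pos (by norm_num) (Nat.pow_pos t2)) _, ?_, ?_, ?_⟩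
    · have e1 : 3 * (4 * a ^ 3 + 16 * a * X ^ 2) ≤ (3 * a) ^ 3 := by
        have : (3 * (4 * a ^ 3 + 16 * a * X ^ 2) : ℝ) ≤ (3 * a) ^ 3 := by
          have := pow_pos ha 3
          nlinarith
        exact_mod_cast this
      rw [pow_succ 3, pow_mul]
      exact e1.trans (Nat.pow_le_pow_left t3 3)
    · rw [e0]
      push_cast
      have e1 : (κ : ℝ) * (6 * a ^ 2 * X) = κ * X * (6 * a ^ 2) := by ring
      have e2 : (0 : ℝ) < (7 / 5) ^ n := by positivity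
      have e3 := pow_pos ha 3
      calc (7 / 5 : ℝ) ^ (n + 1) * (4 * (a : ℝ) ^ 3 + 16 * (a : ℝ) * (X : ℝ) ^ 2)
          ≤ (7 / 5) ^ (n + 1) * (30 / 7 * (a : ℝ) ^ 3) := by gcongr; linarith
        _ = (7 / 5) ^ n * (a : ℝ) * (6 * (a : ℝ) ^ 2) := by ring
        _ ≤ _ := by rw [e1]; gcongr
    · rw [e0]
      push_cast
      have e3 : (0 : ℝ) ≤ 16 * a * X ^ 2 := by positivity
      calc (κ : ℝ) * (6 * (a : ℝ) ^ 2 * X) = κ * (X : ℝ) * (6 * (a : ℝ) ^ 2) := by ring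
        _ ≤ (3 / 2) ^ n * (a : ℝ) * (6 * (a : ℝ) ^ 2) := by gcongr
        _ = (3 / 2) ^ (n + 1) * (4 * (a : ℝ) ^ 3) := by ring
        _ ≤ _ := by gcongr; linarith

lemma tower [Fintype Λ₀] [Nonempty Λ₀] (h1 : Clo L s₀) (h2 : Idem s₀) {κ : ℕ}
    (hκ : 2 ^ 20 ≤ κ) :
    ∃ (Λ : Type) (_ : Fintype Λ) (_ : Nonempty Λ) (s : (Λ → A) → A) (pr : ℕ → Λ → Λ₀)
      (q K E : ℕ), Clo L s ∧ Idem s ∧ 0 < q ∧ q ≤ 2 ^ 39 ∧
      Fintype.card Λ ≤ Fintype.card Λ₀ ^ q ∧ 0 < E ∧ 1600 * K ≤ κ * (E * q) ∧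
      E * q ≤ (3 * κ) ^ q ∧ (∀ i, ∀ d ∈ Drift (Tst s₀), d ∘ pr i ∈ Drift (Tst s)) ∧
      ∀ f : Λ₀ → ℤ, (∀ j, 0 ≤ f j ∧ f j ≤ 2) → Dr (Drift (Tst s₀)) κ f →
        Dr (Drift (Tst s)) K fun w => E * ∑ i ∈ range q, f (pr i w) := by
  obtain ⟨a, E, ⟨Λ, _, _, s, I, _, pr, t1, t2, t3, t4, t5, t6⟩, e0, e1, e2, e3⟩ :=
    Tw.iter h1 h2 hκ 24 le_rfl
  have hq : 3 ^ 24 ≤ 2 ^ 39 := by norm_num
  have hq' : 0 < 3 ^ 24 := by norm_num
  generalize 3 ^ 24 = q at t3 t4 e1 e2 e3 hq hq'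
  have hκ' : (2 ^ 20 : ℝ) ≤ κ := by exact_mod_cast hκ
  have ha : (0 : ℝ) < a := by exact_mod_cast e0
  have e4 : 3200 * a ≤ κ * (E * q) := by
    have : (3200 : ℝ) ≤ (7 / 5) ^ 24 := by norm_num
    have : (3200 : ℝ) * a ≤ κ * (E * q : ℕ) := by nlinarith
    exact_mod_cast this
  have e5 : E * q ≤ a := by
    have : (3 / 2 : ℝ) ^ 24 ≤ 2 ^ 20 := by norm_num
    have h0 : (0 : ℝ) ≤ (E * q : ℕ) := Nat.cast_nonneg _
    have : ((E * q : ℕ) : ℝ) ≤ a := by nlinarith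
    exact_mod_cast this
  let e : I ≃ Fin q := Fintype.equivFinOfCardEq t4
  refine ⟨Λ, inferInstance, inferInstance, s,
    fun i => pr (e.symm ⟨i % q, Nat.mod_lt _ hq'⟩), q, 2 * a, E, t1, t2, hq', hq, t3,
    Nat.pos_of_ne_zero fun h => ?_, by omega, by omega, fun i => t5 _, fun f hf hd =>
      (t6 f hf hd).to_dr.congr fun w => ?_⟩
  · rw [h, zero_mul, mul_zero] at e4
    omega
  · rw [← Fin.sum_univ_eq_sum_range (fun i => f (pr (e.symm ⟨i % q, Nat.mod_lt _ hq'⟩) w)),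
      ← e.symm.sum_comp]
    congr 2
    funext i
    simp only [Nat.mod_eq_of_lt i.2]

end Pool.Agent.Lib.MP_71d0e6_al.WD
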