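import Pool.Agent.Lib.MP_71d0e6_al.WD.Defs
import Pool.Agent.Lib.MP_71d0e6_al.SD.Star

namespace Pool.Agent.Lib.MP_71d0e6_al.WD

open FirstOrder FirstOrder.Language Finset Filter Pool.Agent.Lib.MP_71d0e6_al.SD

universe u v w

variable {A : Type w} {Λ : Type}

/-- Two sets of places that cover all places, each a sum of `k` drifts. -/
structure Sys (s : (Λ → A) → A) (k : ℕ) (p p' : Λ → Bool) : Prop where
  cov : ∀ j, p j = false → p' j = true
  d1 : Dr (Drift (Tst s)) k fun j => bi (p j)
  d2 : Dr (Drift (Tst s)) k fun j => bi (p' j)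

/-- Some idempotent term operation carries such a system. -/
def W2 (L : FirstOrder.Language.{u, v}) (A : Type w) [L.Structure A] (k : ℕ) : Prop :=
  ∃ (Λ : Type) (s : (Λ → A) → A) (p p' : Λ → Bool), Clo L s ∧ Idem s ∧ Sys s k p p'

variable {L : FirstOrder.Language.{u, v}} [L.Structure A]

lemma W2.mono {k k' : ℕ} (h : W2 L A k) (hk : k ≤ k') : W2 L A k' := by
  obtain ⟨Λ, s, p, p', h1, h2, h3⟩ := h
  exact ⟨Λ, s, p, p', h1, h2, h3.cov, h3.d1.mono (Tst.zero_mem s) hk,
    h3.d2.mono (Tst.zero_mem s) hk⟩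

lemma W2.toWD {k : ℕ} (h : W2 L A k) : WDiff L A k := by
  obtain ⟨Λ, s, p, p', ⟨t, ht⟩, h2, h3⟩ := h
  obtain ⟨U, V, hT, hd⟩ := h3.d1.tests
  obtain ⟨U', V', hT', hd'⟩ := h3.d2.tests
  let π : Λ → Pos2 k := fun j => ⟨((univ.filter fun r : Fin k => U r j = true,
    univ.filter fun r : Fin k => V r j = true), (univ.filter fun r : Fin k => U' r j = true,
    univ.filter fun r : Fin k => V' r j = true)), by
      have e := hd j
      have e' := hd' j
      have := h3.cov j
      rw [sum_sub_distrib, sum_bi (fun t => U t j), sum_bi (fun t => V t j)] at e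
      rw [sum_sub_distrib, sum_bi (fun t => U' t j), sum_bi (fun t => V' t j)] at e'
      dsimp only
      revert e e' this
      cases p j <;> cases p' j <;> simp only [bi_true, bi_false] <;> intro e e' h
      · simp at h
      all_goals omega⟩
  refine ⟨t.relabel π, fun x => ?_, fun r x y => ⟨?_, ?_⟩⟩
  · rw [Term.realize_relabel, ht]
    exact h2 x
  · rw [Term.realize_relabel, Term.realize_relabel, ht, ht]
    convert hT r x y using 2 <;> funext j <;> simp [π, bv]
  · rw [Term.realize_relabel, Term.realize_relabel, ht, ht]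
    convert hT' r x y using 2 <;> funext j <;> simp [π, bv]

instance (k : ℕ) : Fintype (Pos2 k) := by
  unfold Pos2
  infer_instance

lemma card_pos2_le (k : ℕ) : Fintype.card (Pos2 k) ≤ 16 ^ k := by
  refine (Fintype.card_subtype_le _).trans ?_
  simp only [Fintype.card_prod, Fintype.card_finset, Fintype.card_fin, ← mul_pow]
  exact le_rfl

lemma nonempty_pos2 {k : ℕ} (hk : 0 < k) : Nonempty (Pos2 k) :=
  ⟨⟨(({⟨0, hk⟩}, ∅), (∅, ∅)), by simp⟩⟩

/-- The first set of places. -/
def pp {k : ℕ} (x : Pos2 k) : Bool := decide (x.1.1.1.card = x.1.1.2.card + 1)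

/-- The second set of places. -/
def pp' {k : ℕ} (x : Pos2 k) : Bool := decide (x.1.2.1.card = x.1.2.2.card + 1)

lemma dr_of_sets {s : (Λ → A) → A} {k : ℕ} (P Q : Λ → Finset (Fin k))
    (h : ∀ r x y, (s fun j => if r ∈ P j then y else x) = s fun j => if r ∈ Q j then y else x) :
    Dr (Drift (Tst s)) k fun j => (P j).card - (Q j).card := by
  have := Dr.sum (Tst.zero_mem s) (univ : Finset (Fin k))
    (n := fun _ => 1) (f := fun r j => bi (decide (r ∈ P j)) - bi (decide (r ∈ Q j)))
    fun r _ => Dr.one ⟨fun j => decide (r ∈ P j), fun j => decide (r ∈ Q j), fun x y => by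
      convert h r x y using 2 <;> funext p <;> simp [bv], fun _ => rfl⟩
  simp only [sum_const, card_univ, Fintype.card_fin, smul_eq_mul, mul_one] at this
  exact this.congr fun j => by simp [bi, sum_sub_distrib]

lemma sys_of_term {k : ℕ} (t : L.Term (Pos2 k)) (h : ∀ (r : Fin k) (x y : A),
      (t.realize (fun p => if r ∈ p.1.1.1 then y else x) =
        t.realize (fun p => if r ∈ p.1.1.2 then y else x)) ∧
      (t.realize (fun p => if r ∈ p.1.2.1 then y else x) =
        t.realize (fun p => if r ∈ p.1.2.2 then y else x))) :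
    Sys (fun x : Pos2 k → A => t.realize x) k pp pp' := by
  refine ⟨fun j hj => ?_, (dr_of_sets _ _ fun r x y => (h r x y).1).congr fun j => ?_,
    (dr_of_sets _ _ fun r x y => (h r x y).2).congr fun j => ?_⟩
  · have := j.2
    simp only [pp, pp', decide_eq_false_iff_not, decide_eq_true_eq] at hj ⊢
    omega
  · have := j.2
    simp only [pp, bi, decide_eq_true_eq]
    split_ifs <;> omega
  · have := j.2
    simp only [pp', bi, decide_eq_true_eq]
    split_ifs <;> omega

variable {s : (Λ → A) → A}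

lemma fin_ev (J : ℤ → Λ) {n : ℕ} {f : (ℤ → Λ) → ℤ} (h : Dr (Drift (ZT s)) n f) :
    ∀ᶠ R : ℕ in atTop, Dr (Drift (Tst fun Y => ev s (2 * R) (-R) Y J)) n f := by
  obtain ⟨U, V, hT, hd⟩ := h.tests
  filter_upwards [(eventually_all_finset (range n)).2 fun t _ => (hT t).2.2] with R hR
  have := Dr.sum (Tst.zero_mem fun Y => ev s (2 * R) (-R) Y J) (range n) (n := fun _ => 1)
    (f := fun t J => bi (U t J) - bi (V t J))
    fun t ht => Dr.one ⟨U t, V t, fun x y => hR t ht x y J, fun _ => rfl⟩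
  simpa using this.congr hd

/-- The two prediction tests. -/
lemma Sys.pred (hs : Idem s) {k : ℕ} {p p' : Λ → Bool} (h : Sys s k p p') {Q : ℕ} (hQ : 1 ≤ Q) :
    ∃ d ∈ Drift (ZT s), ∃ d' ∈ Drift (ZT s), (∀ J, d J = 0 ∨ d' J = 0) ∧
      ∀ J : ℤ → Λ, J 1 = J (1 - Q) → d J = 1 ∨ d' J = 1 := by
  have key : ∀ p : Λ → Bool, (Dr (Drift (Tst s)) k fun j => bi (p j)) →
      ∃ m : Λ → Λ → ℤ, (∀ j, m j ∈ Drift (Tst s)) ∧ ∀ j, p j = true → m j j = 1 := by
    rintro p ⟨l, hl, hf⟩
    have : ∀ j, ∃ t, p j = true → l t j = 1 := fun j => by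
      by_contra hn
      push Not at hn
      have : ∑ t ∈ range k, l t j ≤ 0 := sum_nonpos fun t _ => by
        have := abs_le.1 (Drift.abs_le (hl t) j)
        have := (hn t).2
        omega
      have e : _ = bi (p j) := hf j
      rw [(hn 0).1, bi_true] at e
      omega
    choose r hr using this
    exact ⟨fun j => l (r j), fun _ => hl _, hr⟩
  obtain ⟨m, m1, m2⟩ := key p h.d1
  obtain ⟨m', m1', m2'⟩ := key p' h.d2
  have ad : ∀ m : Λ → Λ → ℤ, (∀ j, m j ∈ Drift (Tst s)) →
      (fun J : ℤ → Λ => m (J (1 - Q)) (J 1)) ∈ Drift (ZT s) := fun m hm =>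
    ZT.adapt hs (fun J => m (J (1 - Q))) (fun _ => 1) 1 0 ((Loc.letter _).map m) (Loc.const _)
      (fun J J' h => ⟨by rw [h _ (by omega)], rfl⟩) (fun _ => by simp) fun J => hm _
  refine ⟨_, ad (fun j => if p j = true then m j else 0) fun j => ?_, _,
    ad (fun j => if p j = true then 0 else m' j) fun j => ?_, fun J => ?_, fun J hJ => ?_⟩
  · split_ifs
    exacts [m1 j, Tst.zero_mem s]
  · split_ifs
    exacts [Tst.zero_mem s, m1' j]
  · split_ifs <;> simp
  · rw [hJ]
    split_ifs with e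
    · exact Or.inl (m2 _ e)
    · exact Or.inr (m2' _ (h.cov _ (by simpa using e)))

end Pool.Agent.Lib.MP_71d0e6_al.WD
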