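import Pool.Agent.Lib.MP_71d0e6_al.SD.Defs

namespace Pool.Agent.Lib.MP_71d0e6_al.WD

open FirstOrder FirstOrder.Language Pool.Agent.Lib.MP_71d0e6_al.SD

universe u v w

/-- The term condition: `θ` centralizes `θ` modulo `δ`. -/
def Cent (L : FirstOrder.Language.{u, v}) {B : Type w} [L.Structure B] (θ δ : Setoid B) : Prop :=
  ∀ (n : ℕ) (t : L.Term (Option (Fin n))) (a b : B) (c d : Fin n → B), θ a b →
    (∀ i, θ (c i) (d i)) →
    δ (t.realize fun o => o.elim a c) (t.realize fun o => o.elim a d) →
    δ (t.realize fun o => o.elim b c) (t.realize fun o => o.elim b d)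

/-- The commutator `[θ, θ]`: the meet of all congruences modulo which `θ` centralizes `θ`. -/
def comm (L : FirstOrder.Language.{u, v}) {B : Type w} [L.Structure B] (θ : Setoid B) :
    Setoid B :=
  sInf {δ | IsCon L δ ∧ Cent L θ δ}

/-- `d` is a weak difference term for the variety generated by `A`. -/
def IsWeakDiff (L : FirstOrder.Language.{u, v}) (A : Type w) [L.Structure A]
    (d : L.Term (Fin 3)) : Prop :=
  ∀ (B : Type w) [L.Structure B], InVariety L A B → ∀ θ : Setoid B, IsCon L θ →
    ∀ a b : B, θ a b → comm L θ (d.realize ![a, b, b]) a ∧ comm L θ (d.realize ![b, b, a]) a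

/-- Quadruples `((p, q), (p', q'))` of subsets of a `k`-element set such that
`(|p| - |q|, |p'| - |q'|)` is `(1, 0)`, `(0, 1)` or `(1, 1)`. -/
def Pos2 (k : ℕ) : Type :=
  {x : (Finset (Fin k) × Finset (Fin k)) × (Finset (Fin k) × Finset (Fin k)) //
    (x.1.1.card = x.1.2.card + 1 ∧ x.2.1.card = x.2.2.card) ∨
    (x.1.1.card = x.1.2.card ∧ x.2.1.card = x.2.2.card + 1) ∨
    (x.1.1.card = x.1.2.card + 1 ∧ x.2.1.card = x.2.2.card + 1)}

/-- The strong Maltsev condition `WDiff k`: one idempotent term with `2 k` identities in two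
variables. -/
def WDiff (L : FirstOrder.Language.{u, v}) (A : Type w) [L.Structure A] (k : ℕ) : Prop :=
  ∃ s : L.Term (Pos2 k), (∀ x : A, s.realize (fun _ => x) = x) ∧
    ∀ (r : Fin k) (x y : A),
      (s.realize (fun p => if r ∈ p.1.1.1 then y else x) =
        s.realize (fun p => if r ∈ p.1.1.2 then y else x)) ∧
      (s.realize (fun p => if r ∈ p.1.2.1 then y else x) =
        s.realize (fun p => if r ∈ p.1.2.2 then y else x))

end Pool.Agent.Lib.MP_71d0e6_al.WD
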