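import Pool.Agent.Lib.MP_71d0e6_al.WD.Basic
import Pool.Agent.Lib.MP_71d0e6_al.SD.Mark

namespace Pool.Agent.Lib.MP_71d0e6_al.WD

open FirstOrder FirstOrder.Language Finset Filter Pool.Agent.Lib.MP_71d0e6_al.SD

universe u v w

variable {A : Type w} {Λ : Type}

/-- The demands `dem` on a box of `2 ^ (n + 1)` sites are met by `c` local tests per site and
transports of size at most `B i` over distance `2 ^ i`. -/
def Sol (D : Set (Λ → ℤ)) (c n : ℕ) (B : ℕ → ℕ) (dem : ℕ → Λ → ℤ) : Prop :=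
  ∃ (l : ℕ → ℕ → Λ → ℤ) (g : Λ → ℕ → ℤ → ℤ), (∀ u t, l u t ∈ D) ∧
    (∀ w i u, g w i u ≠ 0 → 0 ≤ u ∧ u + 2 ^ i < 2 ^ (n + 1)) ∧
    (∀ w i u, |g w i u| ≤ B i) ∧
    ∀ w (u : ℕ), u < 2 ^ (n + 1) → dem u w - ∑ t ∈ range c, l u t w =
      ∑ i ∈ range (n + 1), (g w i u - g w i (u - 2 ^ i))

variable {s : (Λ → A) → A}

open Classical in
lemma deliver (hs : Idem s) {κ : Type} {c n P R : ℕ} {B : ℕ → ℕ} (hP : 2 ^ n = P + 1)
    {bs : (ℤ → Λ) → Prop} (b1 : Loc bs)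
    (b2 : ∀ J (d : ℕ), 1 ≤ d → d ≤ P → bs J → ¬ bs (sh d J)) {Z : (ℤ → Λ) → κ} (Z1 : Loc Z)
    (hR1 : ∀ J J', Ag R J J' → bs J = bs J') (hR2 : ∀ J J', Ag R J J' → Z J = Z J')
    (dem : κ → ℕ → Λ → ℤ) (BS : ∀ z, Sol (Drift (Tst s)) c n B (dem z)) :
    Dr (Drift (ZT s)) (2 * c + ∑ i ∈ range (n + 1), 2 * (B i + B i)) fun J =>
      ∑ u ∈ range (2 * P + 2), if bs (sh (-(u : ℤ)) J) then
        dem (Z (sh (-(u : ℤ)) J)) u (J (R + (2 * P + 2 : ℕ) - u)) else 0 := by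
  choose l g hl hg hB hZ using BS
  have hN : 2 ^ (n + 1) = 2 * P + 2 := by rw [pow_succ]; omega
  have hAg : ∀ J J' : ℤ → Λ, (∀ i < (R : ℤ), J i = J' i) → ∀ u : ℕ,
      Ag R (sh (-(u : ℤ)) J) (sh (-(u : ℤ)) J') := fun J J' h u i _ hi => h _ (by omega)
  set T : ℤ := R + (2 * P + 2 : ℕ) with hT
  have layer : ∀ S : Finset ℕ, (∀ u ∈ S, u < 2 * P + 2) → (∀ u ∈ S, ∀ v ∈ S, v ≤ u + P) →
      Dr (Drift (ZT s)) c (fun J => ∑ u ∈ S, if bs (sh (-(u : ℤ)) J) then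
        ∑ t ∈ range c, l (Z (sh (-(u : ℤ)) J)) u t (J (T - u)) else 0) ∧
      ∀ i J, |∑ u ∈ S, (if bs (sh (-(u : ℤ)) J) then
        g (Z (sh (-(u : ℤ)) J)) (J (T - u)) i u else 0)| ≤ B i := fun S h1 h2 => by
    have hu := fun J => sum_uniq S (fun u => bs (sh (-(u : ℤ)) J)) fun u hu v hv h e e' => by
      have := h2 u hu v hv
      refine b2 _ (v - u) (by omega) (by omega) e ?_
      rwa [sh_sh, show ((v - u : ℕ) : ℤ) + -(v : ℤ) = -u by omega]
    refine ⟨⟨fun t J => (∑ u ∈ S, if bs (sh (-(u : ℤ)) J) then l (Z (sh (-(u : ℤ)) J)) u t else 0)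
      (J (T - ∑ u ∈ S, if bs (sh (-(u : ℤ)) J) then (u : ℤ) else 0)), fun t => ?_, fun J => ?_⟩,
      fun i J => ?_⟩
    · refine ZT.adapt hs _ (fun J => T - ∑ u ∈ S, if bs (sh (-(u : ℤ)) J) then (u : ℤ) else 0)
        R (2 * P + 2) (Loc.sum _ fun u => Loc.ite (b1.shift _)
          ((Z1.shift _).map fun z => l z u t) (Loc.const _))
        ((Loc.sum S fun u : ℕ => Loc.ite (b1.shift (-(u : ℤ))) (Loc.const (u : ℤ))
          (Loc.const 0)).map fun x => T - x) (fun J J' h => ?_) (fun J => ?_) fun J => ?_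
      · simp only [fun u => hR1 _ _ (hAg J J' h u), fun u => hR2 _ _ (hAg J J' h u), and_self]
      · rcases hu J with e | ⟨u, hS, e⟩
        · rw [e]
          omega
        · rw [e]
          have := h1 u hS
          omega
      · rcases hu J with e | ⟨u, hS, e⟩
        · rw [e]
          exact Tst.zero_mem s
        · rw [e]
          exact hl _ _ _
    · rcases hu J with e | ⟨u, hS, e⟩
      · simp only [e]
        simp
      · simp only [e]
    · rcases hu J with e | ⟨u, hS, e⟩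
      · simp [e]
      · rw [e]
        exact hB _ _ _ _
  obtain ⟨l1, g1⟩ := layer (range (P + 1)) (fun u hu => by have := mem_range.1 hu; omega)
    fun u _ v hv => by have := mem_range.1 hv; omega
  obtain ⟨l2, g2⟩ := layer (Ico (P + 1) (2 * P + 2)) (fun u hu => (mem_Ico.1 hu).2)
    fun u hu v hv => by
      have := mem_Ico.1 hu
      have := mem_Ico.1 hv
      omega
  let G : ℕ → (ℤ → Λ) → ℤ := fun i J => ∑ u ∈ range (2 * P + 2), if bs (sh (-(u : ℤ)) J) then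
    g (Z (sh (-(u : ℤ)) J)) (J (T - u)) i u else 0
  have G1 : ∀ i, Dr (Drift (ZT s)) (2 * (B i + B i)) fun J => G i J - G i (sh (-2 ^ i) J) :=
    fun i => ZT.unary hs (G := G i) (Loc.sum _ fun u => Loc.ite (b1.shift _)
      ((Z1.shift _).map₂ (Loc.letter _) fun z w => g z w i u) (Loc.const _)) (fun J => by
        simp only [G]
        rw [← sum_range_add_sum_Ico _ (show P + 1 ≤ 2 * P + 2 by omega)]
        push_cast
        exact (abs_add_le _ _).trans (add_le_add (g1 i J) (g2 i J))) _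
  rw [two_mul c]
  refine ((l1.add l2).add (Dr.sum (ZT.zero_mem s) _ fun i _ => G1 i)).congr fun J => ?_
  have G2 : ∀ i, G i (sh (-2 ^ i) J) = ∑ u ∈ range (2 * P + 2), if bs (sh (-(u : ℤ)) J) then
      g (Z (sh (-(u : ℤ)) J)) (J (T - u)) i (u - 2 ^ i) else 0 := fun i => by
    rw [← sum_shift _ _ (2 ^ i)]
    · refine sum_congr rfl fun u _ => ?_
      have e1 : sh (-(u : ℤ)) (sh (-2 ^ i) J) = sh (-((2 ^ i + u : ℕ) : ℤ)) J := by
        rw [sh_sh]
        congr 1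
        push_cast
        ring
      have e2 : sh (-2 ^ i) J (T - u) = J (T - ((2 ^ i + u : ℕ) : ℤ)) := by
        unfold sh
        congr 1
        push_cast
        ring
      have e3 : ((2 ^ i + u : ℕ) : ℤ) - 2 ^ i = u := by
        push_cast
        ring
      rw [e1, e2, e3]
    · intro v hv
      split_ifs at hv with h
      · obtain ⟨e1, e2⟩ := hg _ _ _ _ hv
        have e3 : ((2 ^ i : ℕ) : ℤ) = 2 ^ i := by push_cast; rfl
        have e4 : ((2 ^ (n + 1) : ℕ) : ℤ) = 2 ^ (n + 1) := by push_cast; rfl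
        omega
      · exact absurd rfl hv
  simp only [Pi.add_apply, G2, G]
  rw [sum_range_add_sum_Ico _ (show P + 1 ≤ 2 * P + 2 by omega)]
  simp only [← sum_sub_distrib]
  rw [sum_comm, ← sum_add_distrib]
  refine sum_congr rfl fun u hu => ?_
  split_ifs with h
  · rw [← hZ _ _ u (hN ▸ mem_range.1 hu)]
    ring
  · simp

/-- The four kinds of sites. -/
def cs (d d' : ℤ) : Fin 4 :=
  if d = 1 ∨ d' = 1 then 0 else if d = -1 then 2 else if d' = -1 then 3 else 1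

variable {L : FirstOrder.Language.{u, v}} [L.Structure A]

lemma assemble [Fintype Λ] [Nonempty Λ] (hc : Clo L s) (hs : Idem s) {k : ℕ} {p p' : Λ → Bool}
    (hk : Sys s k p p') (c n : ℕ) (B : ℕ → ℕ) {Λ₀ : Type} (F F' : Fin 4 → Λ₀ → ℤ)
    (ρ : (ℕ → Fin 4) → ℕ → Λ → Λ₀) (h0 : ∀ x, F 0 x = 0 ∧ F' 0 x = 0)
    (hF : ∀ (d d' : ℤ) x, |d| ≤ 1 → |d'| ≤ 1 → d = 0 ∨ d' = 0 → ∃ b : Bool × Bool,
      (b.1 = false → b.2 = true) ∧ d + F (cs d d') x = bi b.1 ∧ d' + F' (cs d d') x = bi b.2)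
    (BS : ∀ z, Sol (Drift (Tst s)) c n B fun u w => F (z u) (ρ z u w))
    (BS' : ∀ z, Sol (Drift (Tst s)) c n B fun u w => F' (z u) (ρ z u w)) :
    W2 L A (1 + (2 * c + ∑ i ∈ range (n + 1), 2 * (B i + B i))) := by
  classical
  obtain ⟨P, hP⟩ : ∃ P, 2 ^ n = P + 1 := ⟨2 ^ n - 1, by have := Nat.two_pow_pos n; omega⟩
  obtain ⟨d, hd, d', hd', hd0, hd1⟩ := hk.pred hs (Q := P.factorial) P.factorial_pos
  have lc : Loc fun J => cs (d J) (d' J) := (ZT.loc hd).map₂ (ZT.loc hd') cs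
  obtain ⟨bs, b1, b2, b3⟩ := markers (fun J => cs (d J) (d' J) ≠ 0) (lc.map (· ≠ 0)) P
    (P.factorial + 1) fun J e h h1 h2 h3 => h (if_pos (hd1 J (per le_rfl h1 h2 h3)))
  let Z : (ℤ → Λ) → ℕ → Fin 4 := fun J u =>
    if u < 2 * P + 2 ∧ ∀ v ∈ range u, ¬ bs (sh ((u : ℤ) - v) J) then
      cs (d (sh u J)) (d' (sh u J)) else 0
  have Z1 : Loc Z := by
    have : ∀ u, Loc fun J => Z J u := fun u =>
      Loc.ite ((Loc.ball (range u) fun v : ℕ => (b1.shift ((u : ℤ) - v)).map Not).map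
        fun q => u < 2 * P + 2 ∧ q) (lc.shift u) (Loc.const _)
    refine ((eventually_all_finset (range (2 * P + 2))).2 fun u _ => this u).mono
      fun R hR J J' hJ => funext fun u => ?_
    by_cases h : u < 2 * P + 2
    · exact hR u (mem_range.2 h) J J' hJ
    · simp only [Z, h, false_and, if_false]
  obtain ⟨R, hR1, hR2⟩ := (b1.and Z1).exists
  have D1 := (Dr.one hd).add (deliver hs hP b1 b2 Z1 hR1 hR2 _ BS)
  have D2 := (Dr.one hd').add (deliver hs hP b1 b2 Z1 hR1 hR2 _ BS')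
  have key : ∀ J, ∃ x, ∀ F : Fin 4 → Λ₀ → ℤ, (∀ x, F 0 x = 0) →
      ∑ u ∈ range (2 * P + 2), (if bs (sh (-(u : ℤ)) J) then F (Z (sh (-(u : ℤ)) J) u)
        (ρ (Z (sh (-(u : ℤ)) J)) u (J (R + (2 * P + 2 : ℕ) - u))) else 0) =
        F (cs (d J) (d' J)) x := fun J => by
    have e : ∀ u : ℕ, Z (sh (-(u : ℤ)) J) u = if u < 2 * P + 2 ∧
        ∀ v ∈ range u, ¬ bs (sh (-(v : ℤ)) J) then cs (d J) (d' J) else 0 := fun u => by
      simp only [Z, sh_sh, add_neg_cancel, sh_zero,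
        fun v : ℕ => show (u : ℤ) - v + -u = -v by ring]
    simp only [e]
    by_cases h : cs (d J) (d' J) = 0
    · exact ⟨ρ (Z J) 0 (J 0), fun F hF => by simp [h, hF]⟩
    · have ex : ∃ u : ℕ, bs (sh (-(u : ℤ)) J) := (b3 J h).imp fun _ h => h.2
      obtain ⟨u, hu, hu'⟩ := b3 J h
      have := Nat.find_min' ex hu'
      refine ⟨ρ (Z (sh (-(Nat.find ex : ℤ)) J)) (Nat.find ex)
        (J (R + (2 * P + 2 : ℕ) - Nat.find ex)), fun F hF => ?_⟩
      rw [sum_eq_single_of_mem (Nat.find ex) (mem_range.2 (by omega)), if_pos (Nat.find_spec ex),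
        if_pos ⟨by omega, fun v hv => Nat.find_min ex (mem_range.1 hv)⟩]
      intro v _ hv
      split_ifs with h1 h2
      · have := Nat.find_min' ex h1
        exact absurd (Nat.find_spec ex) (h2.2 _ (mem_range.2 (by omega)))
      · exact hF _
      · rfl
  choose x hx using key
  choose b hb1 hb2 hb3 using fun J =>
    hF (d J) (d' J) (x J) (Drift.abs_le hd J) (Drift.abs_le hd' J) (hd0 J)
  let J₀ : ℤ → Λ := fun _ => Classical.arbitrary Λ
  obtain ⟨R', r1, r2⟩ := ((fin_ev J₀ (D1.congr (g := fun J => bi (b J).1) fun J => by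
    rw [Pi.add_apply, hx J F fun x => (h0 x).1, hb2])).and
    (fin_ev J₀ (D2.congr (g := fun J => bi (b J).2) fun J => by
      rw [Pi.add_apply, hx J F' fun x => (h0 x).2, hb3]))).exists
  exact ⟨ℤ → Λ, fun Y => ev s (2 * R') (-R') Y J₀, fun J => (b J).1, fun J => (b J).2,
    ev_clo hc _ _ _, fun x => ev_indep hs _ _ _ (fun _ _ _ _ _ => rfl) J₀, hb1, r1, r2⟩

end Pool.Agent.Lib.MP_71d0e6_al.WD
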