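import Pool.Agent.Lib.MP_71d0e6_al.WD.Basic
import Pool.Agent.Lib.MP_71d0e6_al.SD.One

namespace Pool.Agent.Lib.MP_71d0e6_al.WD

open FirstOrder FirstOrder.Language Finset Pool.Agent.Lib.MP_71d0e6_al.SD

universe u v w

variable {L : FirstOrder.Language.{u, v}} {A : Type w} [L.Structure A] {Λ Λ' : Type}

/-- The star product of two operations. -/
def star (s : (Λ → A) → A) (s' : (Λ' → A) → A) : (Λ × Λ' → A) → A :=
  fun Y => s fun j => s' fun j' => Y (j, j')

variable {s : (Λ → A) → A} {s' : (Λ' → A) → A}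

lemma star_clo (h : Clo L s) (h' : Clo L s') : Clo L (star s s') :=
  h.comp fun _ => h'.comp fun _ => Clo.proj _

lemma star_fst (h' : Idem s') (U : Λ → Bool) : tb (star s s') (U ∘ Prod.fst) = tb s U :=
  funext₂ fun x y => congrArg s (funext fun j => h' (bv U x y j))

lemma star_snd (h : Idem s) (U : Λ' → Bool) : tb (star s s') (U ∘ Prod.snd) = tb s' U :=
  funext₂ fun x y => h (s' (bv U x y))

lemma star_idem (h : Idem s) (h' : Idem s') : Idem (star s s') :=
  fun x => (congrArg s (funext fun _ => h' x)).trans (h x)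

open FreeAbelianGroup in
lemma extract (μ : FreeAbelianGroup (Λ → Bool)) (h : map (tb s) μ = 0) :
    ∃ n, Dr (Drift (Tst s)) n fun j => lift (fun U => bi (U j)) μ := by
  let g := Function.invFun (tb s)
  have hg : ∀ U, Tst s U (g (tb s U)) := fun U x y =>
    (congrFun₂ (Function.apply_invFun_apply (f := tb s) (a := U)) x y).symm
  have key : ∀ μ : FreeAbelianGroup (Λ → Bool), ∃ n, Dr (Drift (Tst s)) n fun j =>
      lift (fun U => bi (U j)) μ - lift (fun b => bi (g b j)) (map (tb s) μ) := fun μ => by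
    induction μ using FreeAbelianGroup.induction_on with
    | zero => exact ⟨0, (Dr.zero (Tst.zero_mem s) 0).congr fun _ => by simp⟩
    | of U => exact ⟨1, Dr.one ⟨_, _, hg U, fun _ => by simp⟩⟩
    | neg U _ =>
      exact ⟨1, Dr.one ⟨_, _, fun x y => (hg U x y).symm, fun _ => by
        simp [add_comm, sub_eq_add_neg]⟩⟩
    | add μ μ' ih ih' =>
      obtain ⟨n, ih⟩ := ih
      obtain ⟨n', ih'⟩ := ih'
      exact ⟨_, (ih.add ih').congr fun _ => by simp only [Pi.add_apply, map_add]; ring⟩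
  obtain ⟨n, hn⟩ := key μ
  exact ⟨n, hn.congr fun j => by simp [h]⟩

open FreeAbelianGroup in
lemma extract₁ (hs : Idem s) {P : Λ → Bool}
    (h : ((of (tb s P), 0) : FreeAbelianGroup (A → A → A) × ℤ) ∈ NN L A) :
    ∃ (Λ' : Type) (s' : (Λ' → A) → A) (n : ℕ), Clo L s' ∧ Idem s' ∧
      Dr (Drift (Tst (star s s'))) n fun j => bi (P j.1) := by
  obtain ⟨Λ', s', μ, h1, h2, h3, h4⟩ := h
  obtain ⟨n, hn⟩ := extract (s := star s s')
    (of (P ∘ Prod.fst) - map (fun U => U ∘ Prod.snd) μ) (by
      rw [map_sub, map_of_apply, star_fst h2, ← map_comp_apply, sub_eq_zero]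
      refine Eq.trans h3.symm ?_
      congr 2
      exact funext fun U => (star_snd hs U).symm)
  refine ⟨Λ', s', n, h1, h2, hn.congr fun j => ?_⟩
  rw [map_sub, lift_apply_of, ← lift_comp]
  exact sub_eq_self.2 (h4 j.2)

open FreeAbelianGroup in
lemma extract₂ (hc : Clo L s) (hs : Idem s) {P P' : Λ → Bool} (hP : ∀ j, P j = false → P' j = true)
    (h : ((of (tb s P), 0) : FreeAbelianGroup (A → A → A) × ℤ) ∈ NN L A)
    (h' : ((of (tb s P'), 0) : FreeAbelianGroup (A → A → A) × ℤ) ∈ NN L A) : ∃ n, W2 L A n := by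
  obtain ⟨Λ₁, s₁, n₁, a1, a2, a3⟩ := extract₁ hs h
  rw [← star_fst a2] at h'
  obtain ⟨Λ₂, s₂, n₂, b1, b2, b3⟩ := extract₁ (star_idem hs a2) h'
  refine ⟨n₁ + n₂, _, star (star s s₁) s₂, fun j => P j.1.1, fun j => P' j.1.1,
    star_clo (star_clo hc a1) b1, star_idem (star_idem hs a2) b2, fun j => hP _,
    (a3.comap Prod.fst ?_).mono (Tst.zero_mem _) (Nat.le_add_right _ _),
    b3.mono (Tst.zero_mem _) (Nat.le_add_left _ _)⟩
  rintro d ⟨U, V, hT, hd⟩
  exact ⟨U ∘ Prod.fst, V ∘ Prod.fst, fun x y => (congrFun₂ (star_fst b2 U) x y).trans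
    ((hT x y).trans (congrFun₂ (star_fst (s := star s s₁) b2 V) x y).symm), fun _ => hd _⟩

open FreeAbelianGroup in
lemma exists_br (L : FirstOrder.Language.{u, v}) (A : Type w) [L.Structure A] :
    ∃ (G : Type w) (_ : AddCommGroup G) (br : (A → A → A) → G),
      (∀ t : (Fin 3 → A) → A, Clo L t → Idem t → br (fun x y => t ![x, y, y]) =
        br (fun x y => t ![x, y, x]) + br fun x y => t ![x, x, y]) ∧
      ∀ t : (Fin 3 → A) → A, Clo L t → Idem t →
        br (fun x y => t ![x, y, y]) = br (fun x _ => x) →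
        br (fun x y => t ![y, y, x]) = br (fun x _ => x) → ∃ n, W2 L A n := by
  let φ := QuotientAddGroup.mk' (NN L A)
  have hφ : ∀ p, φ p = 0 ↔ p ∈ NN L A := fun p => QuotientAddGroup.eq_zero_iff p
  have e : ∀ (t : (Fin 3 → A) → A) (p q r : Bool), tb t ![p, q, r] = fun x y =>
      t ![if p = true then y else x, if q = true then y else x, if r = true then y else x] :=
    fun t p q r => funext₂ fun x y => congrArg t (funext fun j => by fin_cases j <;> rfl)
  have h0 : φ (of fun x _ => x, 0) = 0 := (hφ _).2 ⟨Unit, fun x => x (), of fun _ => false,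
    Clo.proj _, fun _ => rfl, rfl, fun _ => by simp⟩
  refine ⟨_, inferInstance, fun b => φ (of b, 0), fun t h1 h2 => ?_, fun t h1 h2 h3 h4 => ?_⟩
  · rw [← sub_eq_zero, ← map_add, ← map_sub, hφ]
    refine ⟨_, t, of ![false, true, true] - (of ![false, true, false] + of ![false, false, true]),
      h1, h2, by simp [e], fun j => ?_⟩
    fin_cases j <;> simp
  · refine extract₂ h1 h2 (P := ![false, true, true]) (P' := ![true, true, false]) (by decide)
      ((hφ _).1 ?_) ((hφ _).1 ?_)
    · rw [e]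
      exact h3.trans h0
    · rw [e]
      exact h4.trans h0

theorem part_one {d : L.Term (Fin 3)} (h : IsWeakDiff L A d) : ∃ n, W2 L A n := by
  obtain ⟨G, _, br, h1, h2⟩ := exists_br L A
  let K : Setoid ((Fin 3 → A) → A) :=
    ⟨fun t t' => (∀ x, t (fun _ => x) = t' fun _ => x) ∧
      (Idem t → br (fun x y => t ![x, y, x]) = br fun x y => t' ![x, y, x]),
      fun _ => ⟨fun _ => rfl, fun _ => rfl⟩,
      fun h => ⟨fun x => (h.1 x).symm, fun hi => (h.2 fun x => (h.1 x).trans (hi x)).symm⟩,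
      fun h h' => ⟨fun x => (h.1 x).trans (h'.1 x),
        fun hi => (h.2 hi).trans (h'.2 fun x => (h.1 x).symm.trans (hi x))⟩⟩
  let θ : Setoid (F3 L A) := Setoid.ker fun t x => t.1 fun _ => x
  let ρ : Setoid (F3 L A) :=
    ⟨fun t t' => ∀ (I : Type) (g : (Option I → A) → A) (e : I → F3 L A), Clo L g →
      K (fun v => g fun o => o.elim (t.1 v) fun i => (e i).1 v)
        fun v => g fun o => o.elim (t'.1 v) fun i => (e i).1 v,
      fun _ _ _ _ _ => K.refl _, fun h I g e hg => K.symm (h I g e hg),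
      fun h h' I g e hg => K.trans (h I g e hg) (h' I g e hg)⟩
  have hθ : IsCon L θ := fun n f x y h => funext fun a =>
    congrArg (Structure.funMap f) (funext fun j => congrFun (h j) a)
  have hρ : IsCon L ρ := IsCon.of_update fun n f x i a b hab I g e hg => by
    have hf : Clo L fun y : Fin n → A => Structure.funMap f y := ⟨.func f .var, fun _ => rfl⟩
    have := hab (I ⊕ Fin n) _ (Sum.elim e x) (hg.comp (f := fun o Y => o.elim
      (Structure.funMap f fun j => Y (if j = i then none else some (.inr j)))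
      fun i => Y (some (.inl i))) fun o => by
        cases o
        exacts [hf.comp fun _ => Clo.proj _, Clo.proj _])
    convert this using 4 <;> rename_i v _ o <;> cases o <;> try rfl
    all_goals
      refine congrArg (Structure.funMap f) (funext fun j => ?_)
      by_cases hj : j = i
      · simp [hj]
      · simp [hj]
  have hC : Cent L θ ρ := fun n t a b c c' hab hc H I g e hg => by
    let Ψ : F3 L A → (Fin n → F3 L A) → (Fin 3 → A) → A := fun α γ v => g fun o => o.elim
      (t.realize fun o => o.elim (α.1 ![v 0, v 1, v 0]) fun i => (γ i).1 ![v 0, v 2, v 0])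
      fun i => (e i).1 ![v 0, v 2, v 0]
    have c3 : ∀ (α : F3 L A) (j : Fin 3), Clo L fun v : Fin 3 → A => α.1 ![v 0, v j, v 0] :=
      fun α j => α.2.comp (f := fun i v => ![v 0, v j, v 0] i) fun i => by
        fin_cases i <;> exact Clo.proj _
    have Ψ1 : ∀ α γ, Clo L (Ψ α γ) := fun α γ => hg.comp fun o => by
      cases o with
      | none =>
        refine Clo.comp ⟨t, fun _ => rfl⟩ fun o => ?_
        cases o
        exacts [c3 _ _, c3 _ _]
      | some i => exact c3 _ _
    have ec : ∀ x : A, ![x, x, x] = fun _ => x := fun x => funext fun j => by fin_cases j <;> rfl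
    have Ψ2 : ∀ α γ x y, Ψ α γ ![x, y, y] = g fun o => o.elim
        ((t.realize fun o : Option (Fin n) => o.elim α γ : F3 L A).1 ![x, y, x])
        fun i => (e i).1 ![x, y, x] :=
      fun α γ x y => by
        rw [F3.realize]
        refine congrArg g (funext fun o => ?_)
        congr 2
        funext o
        cases o <;> rfl
    have Ψ3 : ∀ α x y, Ψ α c ![x, y, x] = Ψ α c' ![x, y, x] := fun α x y => by
      have : ∀ i, (c i).1 ![x, x, x] = (c' i).1 ![x, x, x] := fun i => ec x ▸ congrFun (hc i) x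
      simp only [Ψ, Matrix.cons_val, this]
    have Ψ4 : ∀ γ x y, Ψ a γ ![x, x, y] = Ψ b γ ![x, x, y] := fun γ x y => by
      have : a.1 ![x, x, x] = b.1 ![x, x, x] := ec x ▸ congrFun hab x
      simp only [Ψ, Matrix.cons_val, this]
    have Ψ5 : ∀ α γ x, Ψ α γ (fun _ => x) = g fun o => o.elim
        ((t.realize fun o : Option (Fin n) => o.elim α γ : F3 L A).1 fun _ => x)
        fun i => (e i).1 fun _ => x :=
      fun α γ x => by rw [← ec x, Ψ2]
    have i1 : ∀ α x, Ψ α c (fun _ => x) = Ψ α c' fun _ => x := fun α x => ec x ▸ Ψ3 α x x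
    have i2 : ∀ γ x, Ψ a γ (fun _ => x) = Ψ b γ fun _ => x := fun γ x => ec x ▸ Ψ4 γ x x
    refine ⟨fun x => (Ψ5 _ _ x).symm.trans ((i1 b x).trans (Ψ5 _ _ x)), fun hi => ?_⟩
    have j1 : Idem (Ψ b c) := fun x => (Ψ5 _ _ x).trans (hi x)
    have j2 : Idem (Ψ a c) := fun x => (i2 _ x).trans (j1 x)
    have := (H I g e hg).2 fun x => (Ψ5 _ _ x).symm.trans (j2 x)
    simp only [← Ψ2] at this ⊢
    rw [h1 _ (Ψ1 _ _) j2, h1 _ (Ψ1 _ _) fun x => (i1 _ x).symm.trans (j2 x)] at this
    rw [h1 _ (Ψ1 _ _) j1, h1 _ (Ψ1 _ _) fun x => (i1 _ x).symm.trans (j1 x)]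
    simp only [Ψ3, Ψ4] at this ⊢
    rw [add_left_cancel this]
  let z : Fin 3 → F3 L A := fun i => ⟨fun v => v i, Clo.proj i⟩
  obtain ⟨e1, e2⟩ := h (F3 L A) (fun n t t' ht b => Subtype.ext <| funext fun v => by
    rw [F3.realize, F3.realize, ht]) θ hθ (z 0) (z 1) rfl
  have k1 := Setoid.sInf_iff.1 e1 ρ ⟨hρ, hC⟩ Empty _ Empty.elim (Clo.proj none)
  have k2 := Setoid.sInf_iff.1 e2 ρ ⟨hρ, hC⟩ Empty _ Empty.elim (Clo.proj none)
  simp only [Option.elim, F3.realize] at k1 k2
  have hi : Idem fun v : Fin 3 → A => d.realize v := fun x => by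
    convert k1.1 x using 2
    funext j
    fin_cases j <;> rfl
  refine h2 (fun v => d.realize v) ⟨d, fun _ => rfl⟩ hi ?_ ?_
  · exact Eq.trans (congrArg br (funext₂ fun x y => congrArg (fun v => d.realize v)
      (funext fun j => by fin_cases j <;> rfl))) (k1.2 k1.1)
  · exact Eq.trans (congrArg br (funext₂ fun x y => congrArg (fun v => d.realize v)
      (funext fun j => by fin_cases j <;> rfl))) (k2.2 k2.1)

end Pool.Agent.Lib.MP_71d0e6_al.WD
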