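import Pool.Agent.Lib.MP_71d0e6_al.WD.Mark
import Pool.Agent.Lib.MP_71d0e6_al.WD.Amp
import Pool.Agent.Lib.MP_71d0e6_al.SD.Step

namespace Pool.Agent.Lib.MP_71d0e6_al.WD

open FirstOrder FirstOrder.Language Finset Pool.Agent.Lib.MP_71d0e6_al.SD

universe u v w

variable {A : Type w} {Λ : Type}

lemma sum_mod (φ : ℕ → ℤ) (q m : ℕ) :
    ∑ t ∈ range (m * q), φ (t % q) = m * ∑ i ∈ range q, φ i := by
  induction m with
  | zero => simp
  | succ m ih =>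
    have e : ∑ i ∈ range q, φ ((m * q + i) % q) = ∑ i ∈ range q, φ i :=
      sum_congr rfl fun i hi => by rw [Nat.mul_add_mod', Nat.mod_eq_of_lt (mem_range.1 hi)]
    rw [add_mul, one_mul, sum_range_add, ih, e]
    push_cast
    ring

lemma supply₁ {D : Set (Λ → ℤ)} (h0 : (0 : Λ → ℤ) ∈ D) {κ K E q : ℕ} (φ : ℕ → Λ → ℤ)
    (hκ : ∀ i, Dr D κ (φ i)) (hK : Dr D K fun w => E * ∑ i ∈ range q, φ i w) (hX : 0 < E * q)
    (T : ℕ) : Dr D (T / (E * q) * K + E * q * κ) fun w => ∑ t ∈ range T, φ (t % q) w := by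
  have e := Dr.sum h0 (range (T % (E * q))) (n := fun _ => κ)
    fun t _ => hκ ((T / (E * q) * E * q + t) % q)
  simp only [sum_const, card_range, smul_eq_mul] at e
  refine ((hK.nsmul h0 (T / (E * q))).add (e.mono h0
    (Nat.mul_le_mul_right _ (Nat.mod_lt _ hX).le))).congr fun w => ?_
  conv_rhs => rw [← Nat.div_add_mod' T (E * q), sum_range_add, ← mul_assoc,
    sum_mod (fun i => φ i w)]
  simp only [Pi.add_apply]
  push_cast
  ring

/-- The number of sites before `u` that have kind `c`. -/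
def cnt (z : ℕ → Fin 4) (c : Fin 4) (u : ℕ) : ℕ := ∑ v ∈ range u, if z v = c then 1 else 0

lemma sum_cnt (z : ℕ → Fin 4) (ψ : Fin 4 → ℕ → ℤ) (N : ℕ) :
    ∑ u ∈ range N, ψ (z u) (cnt z (z u) u) = ∑ c, ∑ t ∈ range (cnt z c N), ψ c t := by
  induction N with
  | zero => simp [cnt]
  | succ N ih =>
    have e : ∀ c, ∑ t ∈ range (cnt z c (N + 1)), ψ c t = ∑ t ∈ range (cnt z c N), ψ c t +
        if z N = c then ψ c (cnt z c N) else 0 := fun c => by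
      rw [cnt, sum_range_succ]
      split_ifs
      · exact sum_range_succ _ _
      · simp [cnt]
    simp only [e, sum_add_distrib, sum_ite_eq, mem_univ, if_true]
    rw [sum_range_succ, ih]

lemma cnt_tot (z : ℕ → Fin 4) (N : ℕ) : ∑ c, cnt z c N = N := by
  simp only [cnt]
  rw [sum_comm]
  simp

lemma supply₂ {D : Set (Λ → ℤ)} (h0 : (0 : Λ → ℤ) ∈ D) {κ K E q N : ℕ}
    (φ : Fin 4 → ℕ → Λ → ℤ) (hκ : ∀ c i, Dr D κ (φ c i))
    (hK : ∀ c, Dr D K fun w => E * ∑ i ∈ range q, φ c i w) (hX : 0 < E * q)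
    (h1 : 1600 * K ≤ κ * (E * q)) (h3 : 4 * κ * (E * q) ≤ N) (z : ℕ → Fin 4) :
    Dr D ((κ / 1600 + 2) * N) fun w => ∑ u ∈ range N, φ (z u) (cnt z (z u) u % q) w := by
  refine ((Dr.sum h0 univ fun c _ => supply₁ h0 (φ c) (hκ c) (hK c) hX (cnt z c N)).congr
    fun w => (sum_cnt z (fun c t => φ c (t % q) w) N).symm).mono h0 ?_
  have e1 : ∀ T, 1600 * (T / (E * q) * K) ≤ κ * T := fun T =>
    calc 1600 * (T / (E * q) * K) = T / (E * q) * (1600 * K) := by ring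
      _ ≤ T / (E * q) * (κ * (E * q)) := Nat.mul_le_mul_left _ h1
      _ = κ * (T / (E * q) * (E * q)) := by ring
      _ ≤ κ * T := Nat.mul_le_mul_left _ (Nat.div_mul_le_self _ _)
  have e2 : 1600 * ∑ c, cnt z c N / (E * q) * K ≤ κ * N := by
    conv_rhs => rw [← cnt_tot z N]
    rw [mul_sum, mul_sum]
    exact sum_le_sum fun c _ => e1 _
  have e3 : (κ + 1600) * N ≤ 1600 * (κ / 1600 + 2) * N := Nat.mul_le_mul_right _ (by omega)
  have e4 : 4 * κ * (E * q) = 4 * (E * q * κ) := by ring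
  rw [add_mul, mul_assoc 1600] at e3
  simp only [sum_add_distrib, sum_const, card_univ, Fintype.card_fin, smul_eq_mul]
  omega

lemma sol {D : Set (Λ → ℤ)} {c n : ℕ} {η : ℝ} (η0 : 0 ≤ η)
    (hS : ∀ i, Spl D (c * 2 ^ i) (imb c η i)) {dem : ℕ → Λ → ℤ}
    (hZ : ∀ u w, 0 ≤ dem u w ∧ dem u w ≤ 2)
    (h : Dr D (c * 2 ^ (n + 1)) fun w => ∑ u ∈ range (2 ^ (n + 1)), dem u w) :
    Sol D c n (fun i => ⌊(4 * 2 ^ i + imb c η i + (n + 1 : ℕ)) / 2 ^ (i + 1)⌋₊) dem := by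
  have hΦ : ∀ w (a q : ℕ), 0 ≤ ∑ u ∈ range (a + q), dem u w - ∑ u ∈ range a, dem u w ∧
      ∑ u ∈ range (a + q), dem u w - ∑ u ∈ range a, dem u w ≤ 2 * q := fun w a q => by
    rw [sum_range_add, add_sub_cancel_left]
    refine ⟨sum_nonneg fun _ _ => (hZ _ _).1,
      (sum_le_card_nsmul _ _ 2 fun _ _ => (hZ _ _).2).trans ?_⟩
    simp [mul_comm]
  obtain ⟨asg, g, a1, a2, a3, a4⟩ := box c (imb c η) (imb_nonneg c η0) hS (n + 1) 0 _
    (fun w x => ∑ u ∈ range x, dem u w) h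
    (fun w a b q => by
      have := hΦ w a q
      have := hΦ w b q
      rw [abs_le]
      push_cast
      omega)
    (fun _ => by simp)
  choose l hl hs using a1
  refine ⟨l, g, hl, a2, fun w i u => ?_, fun w u hu => ?_⟩
  · rw [← Int.natCast_natAbs, Nat.cast_le]
    refine Nat.le_floor ((le_div_iff₀ (by positivity)).2 ?_)
    have := a3 w i u
    rwa [← Int.natCast_natAbs, Int.cast_natCast, Nat.cast_zero, zero_add] at this
  · rw [← a4 w u hu, hs, sum_range_succ, add_sub_cancel_left]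

lemma lin_le_pow' (j : ℕ) : j + 65 ≤ 2 ^ (j + 10) := by
  have := Nat.lt_two_pow_self (n := j)
  rw [pow_add]
  omega

lemma nums {k q : ℕ} (hk : 2 ^ 60 ≤ k) (hq : q ≤ 2 ^ 39) :
    ∃ n, (12 * k) ^ (q + 1) ≤ 2 ^ (n + 1) ∧ 1024 * (n + 1) ≤ k := by
  obtain ⟨j, hj⟩ := Nat.exists_eq_add_of_le' (Nat.le_log_of_pow_le Nat.one_lt_two hk)
  have j1 : 2 ^ (j + 60) ≤ k := hj ▸ Nat.pow_log_le_self 2 (by omega)
  have j2 : k < 2 ^ (j + 60 + 1) := hj ▸ Nat.lt_pow_succ_log_self Nat.one_lt_two k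
  have j3 : 12 * k ≤ 2 ^ (j + 65) :=
    calc 12 * k ≤ 16 * k := Nat.mul_le_mul_right _ (by norm_num)
      _ ≤ 16 * 2 ^ (j + 60 + 1) := Nat.mul_le_mul_left _ j2.le
      _ = _ := by ring
  obtain ⟨n, hn⟩ := Nat.exists_eq_add_one_of_ne_zero
    (Nat.mul_ne_zero (show j + 65 ≠ 0 from Nat.succ_ne_zero _) q.succ_ne_zero)
  have j5 : (12 * k) ^ (q + 1) ≤ (2 ^ (j + 65)) ^ (q + 1) := Nat.pow_le_pow_left j3 (q + 1)
  rw [← pow_mul, hn] at j5
  refine ⟨n, j5, ?_⟩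
  have j4 : q + 1 ≤ 2 ^ 40 := by omega
  calc 1024 * (n + 1) = 1024 * ((j + 65) * (q + 1)) := by rw [hn]
    _ ≤ 1024 * (2 ^ (j + 10) * 2 ^ 40) :=
      Nat.mul_le_mul_left _ (Nat.mul_le_mul (lin_le_pow' j) j4)
    _ = 2 ^ (j + 60) := by ring
    _ ≤ k := j1

/-- The demand of a site of each kind. -/
def dem (p p' : Λ → Bool) (e : Fin 4) (c : Fin 4) (w : Λ × Λ × Λ) : ℤ :=
  if c = 0 then 0 else if c = 1 then bi (p w.2.1) else if c = e then
    bi (p w.2.1) + bi (p' w.2.1) + bi (p w.1) * bi (!p' w.2.1)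
  else bi (p w.2.1) + bi (p w.1) * bi (!p w.2.1)

lemma dem_bd (p p' : Λ → Bool) (e c : Fin 4) (w : Λ × Λ × Λ) :
    0 ≤ dem p p' e c w ∧ dem p p' e c w ≤ 2 := by
  unfold dem
  split_ifs <;> cases p w.1 <;> cases p w.2.1 <;> cases p' w.2.1 <;> simp

lemma dem_dr {s : (Λ → A) → A} {k : ℕ} {p p' : Λ → Bool}
    (h : Dr (Drift (Tst s)) k fun j => bi (p j)) (h' : Dr (Drift (Tst s)) k fun j => bi (p' j))
    (e c : Fin 4) : Dr (Drift (Tst (cube s))) (3 * k) (dem p p' e c) := by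
  have h0 := Tst.zero_mem (cube s)
  have a := h.comap _ fun _ => lift₂
  have a' := h'.comap _ fun _ => lift₂
  unfold dem
  split_ifs
  · exact Dr.zero h0 _
  · exact a.mono h0 (by omega)
  · exact ((a.add a').add (gate₁ h fun w => !p' w.1)).mono h0 (by omega)
  · exact (a.add (gate₁ h fun w => !p w.1)).mono h0 (by omega)

lemma dem_cov {p p' : Λ → Bool} (h : ∀ j, p j = false → p' j = true) (d d' : ℤ)
    (w : Λ × Λ × Λ) (h1 : |d| ≤ 1) (h2 : |d'| ≤ 1) (h3 : d = 0 ∨ d' = 0) : ∃ b : Bool × Bool,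
      (b.1 = false → b.2 = true) ∧ d + dem p p' 2 (cs d d') w = bi b.1 ∧
        d' + dem p' p 3 (cs d d') w = bi b.2 := by
  have e1 := h w.1
  have e2 := h w.2.1
  rw [abs_le] at h1 h2
  have : (d = 1 ∧ d' = 0) ∨ (d = 0 ∧ d' = 1) ∨ (d = 0 ∧ d' = 0) ∨ (d = -1 ∧ d' = 0) ∨
    (d = 0 ∧ d' = -1) := by omega
  unfold dem
  revert e1 e2
  rcases this with ⟨rfl, rfl⟩ | ⟨rfl, rfl⟩ | ⟨rfl, rfl⟩ | ⟨rfl, rfl⟩ | ⟨rfl, rfl⟩ <;>
    cases p w.1 <;> cases p w.2.1 <;> cases p' w.1 <;> cases p' w.2.1 <;> decide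

variable {L : FirstOrder.Language.{u, v}} [L.Structure A]

lemma step {k : ℕ} (hk : 2 ^ 60 ≤ k) (h : WDiff L A k) : W2 L A (k - 1) := by
  obtain ⟨t, t1, t2⟩ := h
  have hs := sys_of_term t t2
  have := nonempty_pos2 (k := k) (by omega)
  obtain ⟨Λ, _, _, s, pr, q, K, E, h1, h2, q0, hq, h3, h7, h6, h8, h4, h5⟩ :=
    tower (L := L) (κ := 3 * k) (cube_clo ⟨t, fun _ => rfl⟩) (cube_idem t1) (by omega)
  obtain ⟨n, n0, n2⟩ := nums hk hq
  have n1 : 4 * (3 * k) * (E * q) ≤ 2 ^ (n + 1) :=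
    calc 4 * (3 * k) * (E * q) ≤ 12 * k * (12 * k) ^ q := Nat.mul_le_mul (by omega)
          (h8.trans (Nat.pow_le_pow_left (by omega) _))
      _ = (12 * k) ^ (q + 1) := by ring
      _ ≤ _ := n0
  set c := 3 * k / 1600 + 2 with hc
  set η : ℝ := 4 * (3 * (k * q) : ℕ) + 1 with hη
  have η0 : 0 ≤ η := by positivity
  have η1 : 2 * (Fintype.card Λ : ℝ) ≤ Real.exp η := by
    have e1 : (2 : ℝ) ≤ Real.exp 1 := by have := Real.add_one_le_exp 1; linarith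
    have e2 : (16 : ℝ) ≤ Real.exp 4 := by
      rw [show (4 : ℝ) = (4 : ℕ) * 1 by norm_num, Real.exp_nat_mul]
      exact le_trans (by norm_num) (pow_le_pow_left₀ (by norm_num) e1 4)
    have e4 : Fintype.card Λ ≤ 16 ^ (3 * (k * q)) := by
      refine h3.trans ?_
      have := card_pos2_le k
      simp only [Fintype.card_prod]
      calc _ ≤ (16 ^ k * (16 ^ k * 16 ^ k)) ^ q := by gcongr
        _ = _ := by
          rw [← pow_add, ← pow_add, ← pow_mul]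
          congr 1
          ring
    have e3 : (Fintype.card Λ : ℝ) ≤ 16 ^ (3 * (k * q)) := by exact_mod_cast e4
    rw [hη, Real.exp_add, mul_comm (4 : ℝ) (3 * (k * q) : ℕ), Real.exp_nat_mul, mul_comm]
    exact mul_le_mul (e3.trans (pow_le_pow_left₀ (by norm_num) e2 _)) e1 (by norm_num)
      (by positivity)
  have hS : ∀ i, Spl (Drift (Tst s)) (c * 2 ^ i) (imb c η i) := fun i => by
    unfold imb
    split_ifs
    · exact spl_triv (fun d hd => Drift.abs_le hd) _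
    · exact spl_cosh (fun d hd => Drift.abs_le hd) _ (by positivity) η1
  have BS : ∀ F : Fin 4 → Pos2 k × Pos2 k × Pos2 k → ℤ, (∀ c w, 0 ≤ F c w ∧ F c w ≤ 2) →
      (∀ c, Dr (Drift (Tst (cube fun x => t.realize x))) (3 * k) (F c)) → ∀ z : ℕ → Fin 4,
      Sol (Drift (Tst s)) c n (fun i => ⌊(4 * 2 ^ i + imb c η i + (n + 1 : ℕ)) / 2 ^ (i + 1)⌋₊)
        fun u w => F (z u) (pr (cnt z (z u) u % q) w) := fun F f1 f2 z =>
    sol η0 hS (fun _ _ => f1 _ _) (supply₂ (Tst.zero_mem s) (fun c i w => F c (pr i w))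
      (fun c i => (f2 c).comap _ (h4 i)) (fun c => h5 _ (f1 c) (f2 c)) (Nat.mul_pos h7 q0) h6 n1 z)
  refine (assemble h1 h2 (k := k) (p := fun w => pp (pr 0 w).1) (p' := fun w => pp' (pr 0 w).1)
    ⟨fun w => hs.cov _, (hs.d1.comap _ fun _ => lift₁).comap _ (h4 0),
      (hs.d2.comap _ fun _ => lift₁).comap _ (h4 0)⟩ c n _ (dem pp pp' 2) (dem pp' pp 3)
    (fun z u w => pr (cnt z (z u) u % q) w) (fun _ => ⟨rfl, rfl⟩) (dem_cov hs.cov)
    (BS _ (dem_bd _ _ _) (dem_dr hs.d1 hs.d2 _))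
    (BS _ (dem_bd _ _ _) (dem_dr hs.d2 hs.d1 _))).mono ?_
  have e1 := sum_imb c η0 (n + 1)
  have e2 : ((∑ i ∈ range (n + 1),
      ⌊(4 * 2 ^ i + imb c η i + (n + 1 : ℕ)) / 2 ^ (i + 1)⌋₊ : ℕ) : ℝ) ≤
      3 * (n + 1 : ℕ) + 53 * c + η / 2 ^ 49 := by
    rw [Nat.cast_sum]
    refine (sum_le_sum fun i _ => Nat.floor_le ?_).trans e1
    have := imb_nonneg c η0 i
    positivity
  have e3 : η / 2 ^ 49 ≤ (k / 64 + 2 : ℕ) := by
    have f1 : k * q ≤ k * 2 ^ 39 := Nat.mul_le_mul_left _ hq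
    have f2 : 4 * (3 * (k * q)) + 1 ≤ (k / 64 + 2) * 2 ^ 49 := by omega
    rw [div_le_iff₀ (by positivity), hη]
    exact_mod_cast f2
  have e4 : ∑ i ∈ range (n + 1), ⌊(4 * 2 ^ i + imb c η i + (n + 1 : ℕ)) / 2 ^ (i + 1)⌋₊ ≤
      3 * (n + 1) + 53 * c + (k / 64 + 2) := by
    have := e2.trans (add_le_add_right e3 _)
    exact_mod_cast this
  simp only [← two_mul, ← mul_sum]
  omega

lemma descent {k : ℕ} (hk : 2 ^ 60 ≤ k) (n : ℕ) : W2 L A n → WDiff L A k := by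
  induction n with
  | zero => exact fun h => (h.mono (Nat.zero_le k)).toWD
  | succ n ih =>
    intro h
    by_cases e : n + 1 ≤ k
    · exact (h.mono e).toWD
    · exact ih (step (by omega) h.toWD)

end Pool.Agent.Lib.MP_71d0e6_al.WD
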