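import Pool.Agent.Lib.MP_71d0e6_al.WD.Basic
import Pool.Agent.Lib.MP_71d0e6_al.SD.Two

namespace Pool.Agent.Lib.MP_71d0e6_al.WD

open FirstOrder FirstOrder.Language Finset Filter Pool.Agent.Lib.MP_71d0e6_al.SD

universe u v w

variable {B : Type w} {X : Type}

/-- Cancellation for a set function modulo `β`. -/
def TC [DecidableEq X] (β : Setoid B) (ν : Finset X → B) : Prop :=
  ∀ Y Y' F : Finset X, Disjoint F Y → Disjoint F Y' →
    (β (ν Y) (ν Y') ↔ β (ν (Y ∪ F)) (ν (Y' ∪ F)))

variable {β : Setoid B}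

lemma TC.moves [DecidableEq X] {Λ : Type} [DecidableEq Λ] {ν : Finset X → B} (C : TC β ν)
    (col : X → Λ) (h : ∀ x x', col x = col x' → β (ν {x}) (ν {x'})) (Y : Finset X) :
    ∀ Y' : Finset X, (∀ j, ∑ x ∈ Y, (if col x = j then 1 else 0 : ℤ) =
      ∑ x ∈ Y', if col x = j then 1 else 0) → β (ν Y) (ν Y') := by
  induction Y using Finset.induction_on with
  | empty =>
    intro Y' hY
    obtain rfl : Y' = ∅ := eq_empty_of_forall_notMem fun x hx => by
      have := hY (col x)
      rw [sum_empty, eq_comm, sum_eq_zero_iff_of_nonneg fun _ _ => by split_ifs <;> simp] at this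
      simpa using this x hx
    exact β.refl _
  | insert x Y hx ih =>
    intro Y' hY
    have key : ∀ x' ∈ Y', col x' = col x → β (ν Y) (ν (Y'.erase x')) :=
      fun x' hx' e => ih _ fun j => by
        have := hY j
        rw [sum_insert hx, ← add_sum_erase _ _ hx', e] at this
        exact add_left_cancel this
    have e : insert x Y = Y ∪ {x} := by rw [union_comm]; rfl
    by_cases hx' : x ∈ Y'
    · have := (C _ _ {x} (by simpa) (by simp)).1 (key x hx' rfl)
      rwa [← e, union_comm, ← insert_eq, insert_erase hx'] at this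
    · obtain ⟨x', h1, h2⟩ : ∃ x' ∈ Y', col x' = col x := by
        by_contra hn
        have := hY (col x)
        rw [sum_insert hx, if_pos rfl, sum_eq_zero (s := Y') fun y hy =>
          if_neg fun e => hn ⟨y, hy, e⟩] at this
        have : 0 ≤ ∑ y ∈ Y, (if col y = col x then 1 else 0 : ℤ) :=
          sum_nonneg fun _ _ => by split_ifs <;> simp
        omega
      have e1 := (C _ _ {x} (by simpa) (by simp [hx'])).1 (key x' h1 h2)
      have e2 := (C _ _ (Y'.erase x') (by simp [hx']) (by simp)).1 (h x x' h2.symm)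
      rw [← insert_eq x', insert_erase h1, union_comm] at e2
      rw [e]
      exact β.trans e1 e2

lemma TC.add [DecidableEq X] {ν : Finset X → B} (C : TC β ν) {Y T : Finset X}
    (h : β (ν T) (ν ∅)) (hd : Disjoint Y T) : β (ν (Y ∪ T)) (ν Y) := by
  have := (C _ _ Y hd (by simp)).1 h
  rwa [empty_union, union_comm] at this

lemma TC.null [DecidableEq X] {ν : Finset X → B} (C : TC β ν) (T : Finset X)
    (h : ∀ x ∈ T, β (ν {x}) (ν ∅)) : β (ν T) (ν ∅) := by
  induction T using Finset.induction_on with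
  | empty => exact β.refl _
  | insert x T hx ih =>
    rw [insert_eq, union_comm]
    exact β.trans (C.add (h x (mem_insert_self _ _)) (by simpa))
      (ih fun y hy => h y (mem_insert_of_mem hy))

variable {L : FirstOrder.Language.{u, v}} [L.Structure B]

/-- Polynomial operations whose only constant is `a`. -/
def Pol (L : FirstOrder.Language.{u, v}) [L.Structure B] (a : B) (f : (X → B) → B) : Prop :=
  ∃ g : (Option X → B) → B, Clo L g ∧ ∀ y, f y = g fun o => o.elim a y

variable {a b : B} {θ : Setoid B}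

lemma Pol.const : Pol L a fun _ : X → B => a := ⟨_, Clo.proj none, fun _ => rfl⟩

lemma Pol.proj (x : X) : Pol L a fun y : X → B => y x := ⟨_, Clo.proj (some x), fun _ => rfl⟩

lemma Pol.comp {Λ : Type} {s : (Λ → B) → B} (hs : Clo L s) {f : Λ → (X → B) → B}
    (hf : ∀ j, Pol L a (f j)) : Pol L a fun y => s fun j => f j y := by
  choose g h1 h2 using hf
  exact ⟨_, hs.comp h1, fun y => by simp only [h2]⟩

lemma Pol.tc [DecidableEq X] {f : (X → B) → B} (hf : Pol L a f) (C : Cent L θ β) (h : θ a b) :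
    TC β (fb f a b) := by
  obtain ⟨g, ⟨t, ht⟩, hg⟩ := hf
  intro Y Y' F hY hY'
  let π : Option X → Option (Fin 4) := fun o => o.elim (some 0) fun x =>
    if x ∈ F then none else some (if x ∈ Y then if x ∈ Y' then 3 else 2 else
      if x ∈ Y' then 1 else 0)
  have hc : ∀ i, θ (![a, a, b, b] i) (![a, b, a, b] i) := fun i => by
    fin_cases i
    exacts [θ.refl _, h, θ.symm h, θ.refl _]
  have e : ∀ (Z : Finset X) (c : B) (m : Fin 4 → B), m 0 = a → (∀ x, (if x ∈ Z then b else a) =
      (π (some x)).elim c m) → fb f a b Z = (t.relabel π).realize fun o => o.elim c m :=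
    fun Z c m h0 h1 => by
      rw [Term.realize_relabel, ht, fb, hg]
      congr 1
      funext o
      cases o with
      | none => exact h0.symm
      | some x => exact Eq.trans (by simp only [Option.elim]; congr) (h1 x)
  have d1 := disjoint_left.1 hY
  have d2 := disjoint_left.1 hY'
  rw [e Y a ![a, a, b, b] rfl, e Y' a ![a, b, a, b] rfl, e (Y ∪ F) b ![a, a, b, b] rfl,
    e (Y' ∪ F) b ![a, b, a, b] rfl]
  · exact ⟨C 4 _ a b _ _ h hc, C 4 _ b a _ _ (θ.symm h) hc⟩
  all_goals
    intro x
    by_cases h1 : x ∈ F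
    · simp [π, h1, d1 h1, d2 h1]
    · by_cases h2 : x ∈ Y <;> by_cases h3 : x ∈ Y' <;> simp [π, h1, h2, h3]

variable {Λ : Type} {s : (Λ → B) → B}

lemma cyl [Fintype Λ] (C : Cent L θ β) (hab : θ a b) (hs : Clo L s) (hi : Idem s) {k : ℕ}
    {P : Λ → Bool} (hk : Dr (Drift (Tst s)) k fun j => bi (P j)) (E : (ℤ → Λ) → Bool)
    (hE : ∀ J (d : ℕ), 1 ≤ d → d ≤ k → E J = true → E (sh d J) = false) (N : ℕ) (p : ℤ)
    (J₀ : ℤ → Λ) (hsh : ∀ (i : Fin (k + 1)) (c : B), ev s N p (bv E a c) J₀ =
      ev s N p (bv (fun J => E (sh (i : ℕ) J)) a c) J₀) :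
    β (ev s N p (bv E a (s (bv P a b))) J₀) a := by
  classical
  obtain ⟨U, V, hT, hd⟩ := hk.tests
  have uniq : ∀ J (i i' : Fin (k + 1)), E (sh (i : ℕ) J) = true → E (sh (i' : ℕ) J) = true →
      i = i' := fun J i i' h h' => by
    have key : ∀ i i' : Fin (k + 1), E (sh (i : ℕ) J) = true → E (sh (i' : ℕ) J) = true →
        ¬ (i : ℕ) < i' := fun i i' h h' hlt => by
      have := hE _ (i' - i) (by omega) (by omega) h
      rw [sh_sh, show (((i' : ℕ) - i : ℕ) : ℤ) + (i : ℕ) = (i' : ℕ) by omega, h'] at this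
      exact Bool.noConfusion this
    have := key i i' h h'
    have := key i' i h' h
    exact Fin.ext (by omega)
  let g : (ℤ → Λ) → (Fin (k + 1) × Λ → B) → B := fun J y =>
    if h : ∃ i : Fin (k + 1), E (sh (i : ℕ) J) = true then s fun j => y (h.choose, j) else a
  have hg : ∀ J, Pol L a (g J) := fun J => by
    unfold g
    split_ifs
    exacts [Pol.comp hs fun _ => Pol.proj _, Pol.const]
  have hf := (Pol.comp (ev_clo hs N p J₀) hg).tc C hab
  set f : (Fin (k + 1) × Λ → B) → B := fun y => ev s N p (fun J => g J y) J₀ with hfd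
  have row : ∀ (i : Fin (k + 1)) (Y : Finset (Fin (k + 1) × Λ)), (∀ x ∈ Y, x.1 = i) →
      fb f a b Y = ev s N p (bv E a (s fun j => if (i, j) ∈ Y then b else a)) J₀ := by
    intro i Y hY
    rw [hsh i]
    refine congrArg (fun Y => ev s N p Y J₀) (funext fun J => ?_)
    simp only [g, bv]
    split_ifs with h1 h2 h2
    · rw [uniq J _ _ h1.choose_spec h2]
      exact congrArg s (funext fun j => by congr)
    · rw [← hi a]
      refine congrArg s (funext fun j => ?_)
      rw [hi a, if_neg fun e => h2 (hY _ e ▸ h1.choose_spec)]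
    · exact absurd ⟨i, h2⟩ h1
    · rfl
  let arr : (Λ → Bool) → (ℕ → Λ → Bool) → Finset (Fin (k + 1) × Λ) := fun r M =>
    univ.filter fun x => (Fin.cons r fun i : Fin k => M i : Fin (k + 1) → Λ → Bool) x.1 x.2 = true
  have wt : ∀ r M j, ∑ x ∈ arr r M, (if x.2 = j then 1 else 0 : ℤ) =
      bi (r j) + ∑ t ∈ range k, bi (M t j) := fun r M j => by
    rw [← Fin.sum_univ_eq_sum_range (fun t => bi (M t j)), sum_filter, Fintype.sum_prod_type]
    have : ∀ q : Λ → Bool, ∑ x, (if q x = true then if x = j then 1 else 0 else 0 : ℤ) =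
        bi (q j) := fun q => by
      rw [sum_eq_single j (fun x _ hx => by simp [hx]) (by simp)]
      simp [bi]
    simp only [Fin.sum_univ_succ, Fin.cons_zero, Fin.cons_succ, this]
  have e1 : fb f a b (arr (fun _ => false) U) = fb f a b (arr (fun _ => false) V) := by
    refine congrArg (fun Y => ev s N p Y J₀) (funext fun J => ?_)
    simp only [g]
    split_ifs with h
    · generalize h.choose = i
      refine Fin.cases ?_ (fun i => ?_) i
      · simp [arr]
      · simp only [arr, mem_filter, mem_univ, true_and, Fin.cons_succ]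
        exact hT i a b
    · rfl
  have e2 := hf.moves Prod.snd (fun x x' h => by
    rw [row x.1 {x} (by simp), row x'.1 {x'} (by simp)]
    obtain ⟨i, j⟩ := x
    obtain ⟨i', j'⟩ := x'
    obtain rfl : j = j' := h
    simp only [mem_singleton, Prod.mk.injEq, true_and]
    exact β.refl _) (arr P V) (arr (fun _ => false) U) fun j => by
      have := hd j
      rw [sum_sub_distrib] at this
      rw [wt, wt, bi_false]
      omega
  have e3 : arr P V = arr P (fun _ _ => false) ∪ arr (fun _ => false) V := by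
    ext ⟨i, j⟩
    refine Fin.cases ?_ (fun i => ?_) i <;> simp [arr]
  have e4 : ∀ x ∈ arr P (fun _ _ => false), x.1 = 0 := by
    rintro ⟨i, j⟩
    refine Fin.cases ?_ (fun i => ?_) i <;> simp [arr]
  rw [e1, e3, ← empty_union (arr (fun _ => false) V), ← union_assoc, union_empty,
    ← hf _ _ _ (disjoint_left.2 ?_) (by simp), row 0 _ e4, row 0 ∅ (by simp)] at e2
  · have e5 : (s fun j => if ((0 : Fin (k + 1)), j) ∈ arr P (fun _ _ => false)
        then b else a) = s (bv P a b) := congrArg s (funext fun j => by simp [arr, bv])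
    have e6 : bv E a (s fun j => if ((0 : Fin (k + 1)), j) ∈ (∅ : Finset (Fin (k + 1) × Λ))
        then b else a) = fun _ => a := by
      funext J
      simp [bv, show (s fun _ => a) = a from hi a]
    rw [e5, e6, ev_indep hi N p (fun _ => a) fun _ _ _ _ _ => rfl] at e2
    exact e2
  · rintro ⟨i, j⟩
    refine Fin.cases ?_ (fun i => ?_) i <;> simp [arr]

lemma rel [Fintype Λ] [Nonempty Λ] (C : Cent L θ β) (hθ : IsCon L θ) (hab : θ a b)
    (hs : Clo L s) (hi : Idem s) {k : ℕ} {p p' P : Λ → Bool} (hp : Sys s k p p')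
    (hk : Dr (Drift (Tst s)) k fun j => bi (P j)) : β (s (bv P a b)) a := by
  classical
  obtain ⟨d, ⟨F, G, ⟨hF, hG, hFG⟩, hd⟩, d', ⟨F', G', ⟨hF', hG', hFG'⟩, hd'⟩, hd0, hd1⟩ :=
    hp.pred hi (Q := k.factorial) k.factorial_pos
  obtain ⟨R, ⟨r1, r2⟩, ⟨r1', r2'⟩, r3⟩ :=
    ((hF.and hG).and ((hF'.and hG').and (eventually_ge_atTop (k.factorial + 1)))).exists
  obtain ⟨R', ⟨s1, s1'⟩, s2⟩ := ((hFG.and hFG').and (eventually_all.2 fun w : Fin (2 * R) → Λ =>
    eventually_all.2 fun i : Fin (k + 1) =>
      (ZT.shift hi ((loc_win R).map fun w' => decide (w' = w)) (i : ℕ)).2.2)).exists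
  let J₀ : ℤ → Λ := fun _ => Classical.arbitrary Λ
  have hac : θ a (s (bv P a b)) := by
    have := hs.pres hθ (fun _ => a) (bv P a b) fun j => by
      unfold bv
      split_ifs
      exacts [hab, θ.refl _]
    rwa [hi a] at this
  have hc := fun E h1 h2 => cyl C hab hs hi hk E h1 (2 * R') (-R') J₀ h2
  generalize s (bv P a b) = c at hac hc ⊢
  have hf := (Pol.comp (ev_clo hs (2 * R') (-R') J₀)
    (f := fun J (y : (Fin (2 * R) → Λ) → B) => y (win R J)) fun J => Pol.proj _).tc C hac
  set f : ((Fin (2 * R) → Λ) → B) → B :=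
    fun y => ev s (2 * R') (-R') (fun J => y (win R J)) J₀ with hfd
  have f0 : fb f a c ∅ = a := by
    simp only [fb, hfd, notMem_empty, if_false]
    exact ev_indep hi _ _ (fun _ => a) (fun _ _ _ _ _ => rfl) J₀
  have f1 : fb f a c univ = c := by
    simp only [fb, hfd, mem_univ, if_true]
    exact ev_indep hi _ _ (fun _ => c) (fun _ _ _ _ _ => rfl) J₀
  have null : ∀ T : Finset (Fin (2 * R) → Λ), (∀ J, win R J ∈ T → d J ≠ 1 ∧ d' J ≠ 1) →
      β (fb f a c T) (fb f a c ∅) := fun T hw => hf.null T fun w hT => by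
    have := hc (fun J => decide (win R J = w)) (fun J e h1 h2 h3 => by
      rw [decide_eq_true_iff] at h3
      rw [decide_eq_false_iff_not]
      intro h4
      have := hw J (h3 ▸ hT)
      have := hd1 J (per r3 h1 h2 (win_eq.1 (h3.trans h4.symm)))
      omega) fun i c => s2 w i a c J₀
    rw [f0]
    convert this using 2
    simp only [fb, hfd, mem_singleton]
    congr 1
    funext J
    simp [bv]
  let Y : ((ℤ → Λ) → Bool) → Finset (Fin (2 * R) → Λ) := fun F =>
    univ.filter fun w => ∃ J, win R J = w ∧ F J = true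
  have hY : ∀ F : (ℤ → Λ) → Bool, (∀ J J', Ag R J J' → F J = F J') →
      (∀ J, win R J ∈ Y F ↔ F J = true) ∧ fb f a c (Y F) = ev s (2 * R') (-R') (bv F a c) J₀ := by
    intro F hF
    have : ∀ J, win R J ∈ Y F ↔ F J = true := fun J => by
      simp only [Y, mem_filter, mem_univ, true_and]
      exact ⟨fun ⟨J', h1, h2⟩ => hF J' J (win_eq.1 h1) ▸ h2, fun h => ⟨J, rfl, h⟩⟩
    refine ⟨this, congrArg (fun Y => ev s (2 * R') (-R') Y J₀) (funext fun J => ?_)⟩
    simp only [this, bv]
  have canc : ∀ S T : Finset (Fin (2 * R) → Λ), fb f a c S = fb f a c T →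
      β (fb f a c (T \ S)) (fb f a c ∅) → β (fb f a c (S \ T)) (fb f a c ∅) := fun S T h1 h2 => by
    refine β.trans ((hf (S \ T) (T \ S) (S ∩ T) (disjoint_sdiff_inter _ _).symm ?_).2 ?_) h2
    · rw [inter_comm]
      exact (disjoint_sdiff_inter _ _).symm
    · rw [sdiff_union_inter, inter_comm, sdiff_union_inter, h1]
  have e1 := canc (Y F) (Y G) (by rw [(hY F r1).2, (hY G r2).2, s1]) (null _ fun J hJ => by
    rw [Finset.mem_sdiff, (hY F r1).1, (hY G r2).1] at hJ
    have := hd0 J
    rw [hd, hJ.1, Bool.eq_false_iff.2 hJ.2, bi_true, bi_false] at this ⊢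
    omega)
  have e2 := canc (Y F') (Y G') (by rw [(hY F' r1').2, (hY G' r2').2, s1']) (null _ fun J hJ => by
    rw [Finset.mem_sdiff, (hY F' r1').1, (hY G' r2').1] at hJ
    have := hd0 J
    rw [hd', hJ.1, Bool.eq_false_iff.2 hJ.2, bi_true, bi_false] at this ⊢
    omega)
  have e3 := null (Y F \ Y G ∪ Y F' \ Y G')ᶜ fun J hJ => by
    rw [mem_compl, mem_union, Finset.mem_sdiff, Finset.mem_sdiff, (hY F r1).1, (hY G r2).1,
      (hY F' r1').1, (hY G' r2').1] at hJ
    rw [hd, hd']
    revert hJ
    cases F J <;> cases G J <;> cases F' J <;> cases G' J <;> simp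
  have e4 := hf.add e3 disjoint_compl_right
  have e5 := hf.add (Y := Y F \ Y G) e2 (disjoint_left.2 fun w h1 h2 => by
    obtain ⟨J, rfl, -⟩ := (mem_filter.1 (Finset.mem_sdiff.1 h1).1).2
    rw [Finset.mem_sdiff, (hY F r1).1, (hY G r2).1] at h1
    rw [Finset.mem_sdiff, (hY F' r1').1, (hY G' r2').1] at h2
    have := hd0 J
    rw [hd, hd', h1.1, h2.1, Bool.eq_false_iff.2 h1.2, Bool.eq_false_iff.2 h2.2] at this
    simp at this)
  rw [union_compl, f1] at e4
  rw [f0] at e1
  exact β.trans e4 (β.trans e5 e1)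

lemma InVariety.two {A : Type w} [L.Structure A] (hB : InVariety L A B) {I : Type}
    (t : L.Term I) (p q : I → Prop) [DecidablePred p] [DecidablePred q]
    (h : ∀ x y : A, t.realize (fun i => if p i then y else x) =
      t.realize fun i => if q i then y else x) (x y : B) :
    t.realize (fun i => if p i then y else x) = t.realize fun i => if q i then y else x := by
  have := hB 2 (t.relabel fun i => if p i then 1 else 0) (t.relabel fun i => if q i then 1 else 0)
    (fun a => by
      rw [Term.realize_relabel, Term.realize_relabel]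
      convert h (a 0) (a 1) using 2 <;> funext p <;> simp only [Function.comp, apply_ite a])
    ![x, y]
  rw [Term.realize_relabel, Term.realize_relabel] at this
  convert this using 2 <;> funext p <;> simp only [Function.comp] <;> split_ifs <;> rfl

theorem part_two {A : Type w} [L.Structure A] {k : ℕ} (hk : 0 < k) (h : WDiff L A k) :
    ∃ d : L.Term (Fin 3), IsWeakDiff L A d := by
  obtain ⟨t, h1, h2⟩ := h
  have := nonempty_pos2 hk
  refine ⟨t.relabel fun j => if pp j = true then if pp' j = true then 1 else 2 else 0,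
    fun B _ hB θ hθ a b hab => ?_⟩
  have hs := sys_of_term (A := B) t fun r x y =>
    ⟨InVariety.two hB t _ _ (fun x y => (h2 r x y).1) x y,
      InVariety.two hB t _ _ (fun x y => (h2 r x y).2) x y⟩
  have hi : Idem fun x : Pos2 k → B => t.realize x := fun x => by
    have := hB 1 (t.relabel fun _ => 0) (.var 0) (fun a => by
      rw [Term.realize_relabel]
      exact h1 (a 0)) fun _ => x
    rwa [Term.realize_relabel] at this
  have key : ∀ P : Pos2 k → Bool, (Dr (Drift (Tst fun x : Pos2 k → B => t.realize x)) k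
      fun j => bi (P j)) → comm L θ (t.realize (bv P a b)) a := fun P hP =>
    Setoid.sInf_iff.2 fun δ hδ => rel hδ.2 hθ hab ⟨t, fun _ => rfl⟩ hi hs hP
  rw [Term.realize_relabel, Term.realize_relabel]
  refine ⟨?_, ?_⟩
  · convert key _ hs.d1 using 2
    funext j
    simp only [Function.comp, bv]
    split_ifs <;> rfl
  · convert key _ hs.d2 using 2
    funext j
    have := hs.cov j
    simp only [Function.comp, bv]
    split_ifs with e1 e2 e3
    exacts [rfl, rfl, rfl, absurd (this (by simpa using e1)) e3]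

end Pool.Agent.Lib.MP_71d0e6_al.WD
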